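import Mathlib
import Pool.Agent.H892.Parry.Common

/-!
# Parry powers of Perron numbers and lower bounds for the Mahler measure
-/

set_option autoImplicit false

open Polynomial

namespace Pool.Agent.V1156.RC

open Pool.Agent.H892.Parry (IsPerron IsParry M deg)

theorem parry_of {β μ : ℝ} (hβ : IsPerron β) (hμ : μ ≤ Real.log (M β)) :
    (∀ n : ℕ, 1 ≤ n → IsParry (β ^ n) → n * (μ - Real.log β) < deg β) ∧
    (Real.log β < μ → {n : ℕ | IsParry (β ^ n)}.Finite) := by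
  have hfirst : ∀ n : ℕ, 1 ≤ n → IsParry (β ^ n) → n * (μ - Real.log β) < deg β := by
    intro n hn hp
    have h4 := Pool.Agent.H892.Parry.log_form hβ hn hp
    have h5 : (n:ℝ) * (μ - Real.log β) ≤ n * (Real.log (M β) - Real.log β) :=
      mul_le_mul_of_nonneg_left (sub_le_sub_right hμ _) (by positivity)
    linarith
  refine ⟨hfirst, fun hlt => ?_⟩
  obtain ⟨N, hN⟩ := exists_nat_gt ((deg β:ℝ) / (μ - Real.log β))
  refine (Set.finite_Iic (N + 1)).subset fun n hn => ?_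
  rw [Set.mem_Iic]
  by_contra hcon
  push Not at hcon
  have h4 := hfirst n (by omega) hn
  have h5 : 0 < μ - Real.log β := by linarith
  rw [div_lt_iff₀ h5] at hN
  have h6 : (N:ℝ) ≤ n := by exact_mod_cast (by omega : N ≤ n)
  have h7 := mul_le_mul_of_nonneg_right h6 h5.le
  linarith

theorem parry_two {β τ : ℝ} (hβ : IsPerron β) (hM : 2 ≤ M β) (hτ1 : 1 < τ)
    (hτ : τ ^ 10 + τ ^ 9 - τ ^ 7 - τ ^ 6 - τ ^ 5 - τ ^ 4 - τ ^ 3 + τ + 1 = 0) (hβτ : β < τ)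
    (n : ℕ) (hn : 3 * deg β ≤ 2 * n) : ¬ IsParry (β ^ n) := by
  intro hp
  have hτ2 := Pool.Agent.H892.Parry.lehmer_lt hτ1 hτ
  have hβ0 : 0 < β := by linarith [hβ.1]
  have hd1 : 1 ≤ deg β := Pool.Agent.H892.Parry.deg_pos hβ.2.1
  have hn1 : 1 ≤ n := by omega
  have h4 := Pool.Agent.H892.Parry.general hβ hn1 hp
  have h8 : (2:ℝ) ^ n ≤ M β ^ n := pow_le_pow_left₀ (by norm_num) hM n
  have h9 : β ^ n ≤ 1.17629 ^ n := pow_le_pow_left₀ hβ0.le (by linarith) n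
  have h7 : (2:ℝ) ^ n ≤ 2 ^ (deg β - 1) * 1.17629 ^ n :=
    h8.trans (h4.trans (mul_le_mul_of_nonneg_left h9 (by positivity)))
  -- squares
  have h10 : ((2:ℝ) ^ n) ^ 3 ≤ (2 ^ (deg β - 1) * 1.17629 ^ n) ^ 3 :=
    pow_le_pow_left₀ (by positivity) h7 3
  have h11 : (2 ^ (deg β - 1) * (1.17629:ℝ) ^ n) ^ 3 = 2 ^ (3 * (deg β - 1)) * (1.17629 ^ 3) ^ n := by
    rw [mul_pow, ← pow_mul, ← pow_mul, ← pow_mul, mul_comm (deg β - 1) 3, mul_comm n 3]
  have h12 : (2:ℝ) ^ (3 * (deg β - 1)) ≤ 2 ^ (2 * n) := pow_le_pow_right₀ (by norm_num) (by omega)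
  have h13 : ((2:ℝ) ^ n) ^ 3 = 2 ^ (2 * n) * 2 ^ n := by
    rw [← pow_mul, ← pow_add]
    congr 1
    ring
  have h14 : (2:ℝ) ^ (2 * n) * 2 ^ n ≤ 2 ^ (2 * n) * (1.17629 ^ 3) ^ n := by
    rw [← h13]
    refine h10.trans ?_
    rw [h11]
    exact mul_le_mul_of_nonneg_right h12 (by positivity)
  have h15 : (2:ℝ) ^ n ≤ (1.17629 ^ 3) ^ n := le_of_mul_le_mul_left h14 (by positivity)
  have h16 : ((1.17629:ℝ) ^ 3) ^ n < 2 ^ n :=
    pow_lt_pow_left₀ (by norm_num) (by norm_num) (by omega)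
  linarith

end Pool.Agent.V1156.RC
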