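import Mathlib
import Pool.Agent.V1156.RV.Fld

/-!
# The energy inequality with charges at many points of the unit circle
-/

set_option autoImplicit false

open Finset Polynomial Module Filter Topology Real

namespace Pool.Agent.V1156.RC

open Pool.Agent.W666.DL Pool.Agent.W666.DY Pool.Agent.Y642.LZ Pool.Agent.Y642.DL
  Pool.Agent.V1156.DL Pool.Agent.V1156.RV

/-- perturbation of a logarithm -/
lemma log_perturb {a c : ℂ} {η u : ℝ} (hη : 0 < η) (ha : η ≤ ‖a‖) (hc : ‖c‖ ≤ u * η)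
    (hu : u ≤ 1 / 2) : Real.log ‖a‖ - 2 * u ≤ Real.log ‖a + c‖ := by
  have ha0 : 0 < ‖a‖ := lt_of_lt_of_le hη ha
  have hu0 : 0 ≤ u := by
    by_contra hcon
    push Not at hcon
    have : u * η < 0 := mul_neg_of_neg_of_pos hcon hη
    linarith [norm_nonneg c]
  have h1 : ‖c‖ ≤ u * ‖a‖ := hc.trans (mul_le_mul_of_nonneg_left ha hu0)
  have h2 : ‖a‖ * (1 - u) ≤ ‖a + c‖ := by
    have h3 : ‖a‖ ≤ ‖a + c‖ + ‖c‖ := by
      have := norm_sub_le (a + c) c
      rwa [add_sub_cancel_right] at this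
    linarith
  have h1u : 0 < 1 - u := by linarith
  have h3 := Real.log_le_log (by positivity) h2
  rw [Real.log_mul ha0.ne' h1u.ne'] at h3
  have h4 : 1 - (1 - u)⁻¹ ≤ Real.log (1 - u) := Real.one_sub_inv_le_log_of_pos h1u
  have h5 : (1 - u)⁻¹ ≤ 1 + 2 * u := by
    rw [inv_le_comm₀ h1u (by linarith), inv_le_iff_one_le_mul₀ (by linarith)]
    nlinarith
  linarith

/-- the energy of the charges -/
lemma charge_energy_cyc (S : Finset ℂ) (hS : S.Nonempty) (w : ℕ) (hw : 0 < w) (v : ℂ)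
    (hv : v ≠ 0) {η : ℝ} (hη : 0 < η) (hη1 : η ≤ 1)
    (hsep : ∀ s ∈ S, ∀ s' ∈ S, s ≠ s' → η ≤ ‖s - s'‖)
    (hE : 0 ≤ ∑ s ∈ S, ∑ s' ∈ S, Real.log ‖s - s'‖) (hvη : ‖v‖ ≤ η / (8 * S.card)) :
    -((S.card : ℝ) * w ^ 2 * (1 + Real.log (1 / ‖v‖))) ≤
      ∑ s ∈ S, ∑ s' ∈ S, ∑ x ∈ nthRootsFinset w (1 : ℂ), ∑ y ∈ nthRootsFinset w (1 : ℂ),
        Real.log ‖(s + v * x) - (s' + v * y)‖ := by
  classical
  set t : ℝ := (S.card : ℝ) with ht
  have ht1 : 1 ≤ t := by
    rw [ht]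
    exact_mod_cast Finset.card_pos.mpr hS
  have hcard : (nthRootsFinset w (1 : ℂ)).card = w :=
    (Complex.isPrimitiveRoot_exp w hw.ne').card_nthRootsFinset
  have hroot : ∀ x ∈ nthRootsFinset w (1 : ℂ), ‖x‖ = 1 := by
    intro x hx
    have h1 : x ^ w = 1 := (mem_nthRootsFinset hw _).mp hx
    have h2 : ‖x‖ ^ w = 1 ^ w := by rw [← norm_pow, h1, norm_one, one_pow]
    exact (pow_left_inj₀ (norm_nonneg _) zero_le_one hw.ne').mp h2
  have hnv : 0 < ‖v‖ := norm_pos_iff.mpr hv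
  have hlv : Real.log (1 / ‖v‖) = -Real.log ‖v‖ := by rw [one_div, Real.log_inv]
  have hv1 : ‖v‖ ≤ 1 := by
    refine hvη.trans ?_
    rw [div_le_one (by positivity)]
    linarith
  have hlv0 : Real.log ‖v‖ ≤ 0 := Real.log_nonpos hnv.le hv1
  -- each block
  have hblock : ∀ s ∈ S, ∀ s' ∈ S, (w : ℝ) ^ 2 * (Real.log ‖s - s'‖ +
      (if s = s' then Real.log ‖v‖ else 0) - 1 / (2 * t)) ≤
      ∑ x ∈ nthRootsFinset w (1 : ℂ), ∑ y ∈ nthRootsFinset w (1 : ℂ),
        Real.log ‖(s + v * x) - (s' + v * y)‖ := by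
    intro s hs s' hs'
    have hw2 : (0:ℝ) ≤ (w : ℝ) ^ 2 * (1 / (2 * t)) := by positivity
    by_cases h : s = s'
    · subst h
      rw [if_pos rfl, sub_self, norm_zero, Real.log_zero, zero_add]
      have h1 : ∀ x ∈ nthRootsFinset w (1 : ℂ), ∀ y ∈ nthRootsFinset w (1 : ℂ),
          Real.log ‖v‖ + Real.log ‖x - y‖ ≤ Real.log ‖(s + v * x) - (s + v * y)‖ := by
        intro x _ y _
        have h2 : (s + v * x) - (s + v * y) = v * (x - y) := by ring
        rw [h2, norm_mul]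
        by_cases hxy : x = y
        · rw [hxy, sub_self, norm_zero, mul_zero, Real.log_zero, add_zero]
          exact hlv0
        · rw [Real.log_mul hnv.ne' (norm_ne_zero_iff.mpr (sub_ne_zero.mpr hxy))]
      have h3 : ∑ x ∈ nthRootsFinset w (1 : ℂ), ∑ y ∈ nthRootsFinset w (1 : ℂ),
          (Real.log ‖v‖ + Real.log ‖x - y‖) ≤
          ∑ x ∈ nthRootsFinset w (1 : ℂ), ∑ y ∈ nthRootsFinset w (1 : ℂ),
            Real.log ‖(s + v * x) - (s + v * y)‖ :=
        Finset.sum_le_sum fun x hx => Finset.sum_le_sum fun y hy => h1 x hx y hy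
      have h4 : ∑ x ∈ nthRootsFinset w (1 : ℂ), ∑ y ∈ nthRootsFinset w (1 : ℂ),
          (Real.log ‖v‖ + Real.log ‖x - y‖) = (w : ℝ) ^ 2 * Real.log ‖v‖ +
          ∑ x ∈ nthRootsFinset w (1 : ℂ), ∑ y ∈ nthRootsFinset w (1 : ℂ),
            Real.log ‖x - y‖ := by
        simp_rw [Finset.sum_add_distrib, Finset.sum_const, hcard, nsmul_eq_mul]
        ring
      have h5 := roots_energy w hw
      linarith
    · rw [if_neg h, add_zero]
      have h1 : ∀ x ∈ nthRootsFinset w (1 : ℂ), ∀ y ∈ nthRootsFinset w (1 : ℂ),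
          Real.log ‖s - s'‖ - 1 / (2 * t) ≤ Real.log ‖(s + v * x) - (s' + v * y)‖ := by
        intro x hx y hy
        have h2 : (s + v * x) - (s' + v * y) = (s - s') + v * (x - y) := by ring
        rw [h2]
        have h3 : ‖v * (x - y)‖ ≤ 1 / (4 * t) * η := by
          rw [norm_mul]
          have h4 : ‖x - y‖ ≤ 2 := by
            have := norm_sub_le x y
            rw [hroot x hx, hroot y hy] at this
            linarith
          calc ‖v‖ * ‖x - y‖ ≤ (η / (8 * t)) * 2 :=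
                mul_le_mul hvη h4 (norm_nonneg _) (by positivity)
            _ = 1 / (4 * t) * η := by ring
        have h4 := log_perturb hη (hsep s hs s' hs' h) h3 (by
          rw [div_le_div_iff₀ (by positivity) (by positivity)]
          linarith)
        have h5 : 2 * (1 / (4 * t)) = 1 / (2 * t) := by
          field_simp
          norm_num
        linarith
      calc (w : ℝ) ^ 2 * (Real.log ‖s - s'‖ - 1 / (2 * t)) =
          ∑ x ∈ nthRootsFinset w (1 : ℂ), ∑ y ∈ nthRootsFinset w (1 : ℂ),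
            (Real.log ‖s - s'‖ - 1 / (2 * t)) := by
            simp_rw [Finset.sum_const, hcard, nsmul_eq_mul]
            ring
        _ ≤ _ := Finset.sum_le_sum fun x hx => Finset.sum_le_sum fun y hy => h1 x hx y hy
  refine le_trans ?_ (Finset.sum_le_sum fun s hs => Finset.sum_le_sum fun s' hs' =>
    hblock s hs s' hs')
  have e1 : ∑ s ∈ S, ∑ s' ∈ S, (w : ℝ) ^ 2 * (Real.log ‖s - s'‖ +
      (if s = s' then Real.log ‖v‖ else 0) - 1 / (2 * t)) =
      (w : ℝ) ^ 2 * (∑ s ∈ S, ∑ s' ∈ S, Real.log ‖s - s'‖) + (w : ℝ) ^ 2 * (t * Real.log ‖v‖) -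
        (w : ℝ) ^ 2 * (t / 2) := by
    simp_rw [← Finset.mul_sum, Finset.sum_sub_distrib, Finset.sum_add_distrib, Finset.sum_ite_eq,
      Finset.sum_const, nsmul_eq_mul]
    have e2 : ∑ s ∈ S, (if s ∈ S then Real.log ‖v‖ else 0) = t * Real.log ‖v‖ := by
      rw [Finset.sum_congr rfl fun s hs => if_pos hs, Finset.sum_const, nsmul_eq_mul]
    rw [e2, ← ht]
    have ht0 : t ≠ 0 := by linarith
    field_simp
  rw [e1, hlv]
  have h6 : 0 ≤ (w : ℝ) ^ 2 * (∑ s ∈ S, ∑ s' ∈ S, Real.log ‖s - s'‖) :=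
    mul_nonneg (by positivity) hE
  have h7 : 0 ≤ (w : ℝ) ^ 2 * (t / 2) := by positivity
  nlinarith

/-- **the energy inequality with charges near many points of the unit circle** -/
theorem energy_cyc (S Z : Finset ℂ) (hS : S.Nonempty) (hZ : Z.Nonempty)
    (hS1 : ∀ s ∈ S, ‖s‖ = 1) {η : ℝ} (hη : 0 < η) (hη1 : η ≤ 1)
    (hsep : ∀ s ∈ S, ∀ s' ∈ S, s ≠ s' → η ≤ ‖s - s'‖)
    (hE : 0 ≤ ∑ s ∈ S, ∑ s' ∈ S, Real.log ‖s - s'‖)
    (hηl : Real.log (1 / η) ≤ 10 * (1 + Real.log Z.card))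
    (hne : ∀ z ∈ Z, ∀ s ∈ S, z ≠ s) (w : ℕ) (hw : 0 < w) (hwZ : S.card * w ≤ Z.card) :
    w * ∑ z ∈ Z, ∑ s ∈ S, Real.log ‖z - s‖ + (1 / 2) * ∑ z ∈ Z, ∑ z' ∈ Z, Real.log ‖z - z'‖ ≤
      10 * ((S.card * (w : ℝ) ^ 2 + Z.card) * (1 + Real.log Z.card) +
        Z.card * ∑ z ∈ Z, Real.posLog ‖z‖) := by
  classical
  set t : ℝ := (S.card : ℝ) with ht
  set n : ℝ := (Z.card : ℝ) with hn
  have ht1 : 1 ≤ t := by
    rw [ht]
    exact_mod_cast Finset.card_pos.mpr hS
  have hn1 : 1 ≤ n := by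
    rw [hn]
    exact_mod_cast Finset.card_pos.mpr hZ
  have hw1 : (1:ℝ) ≤ w := by exact_mod_cast hw
  have htw : t * w ≤ n := by
    rw [ht, hn]
    exact_mod_cast hwZ
  have htn : t ≤ n := by nlinarith
  set l : ℝ := 1 + Real.log n with hl
  have hln : 0 ≤ Real.log n := Real.log_nonneg hn1
  have hl1 : 1 ≤ l := by linarith
  set δ₀ : ℝ := η / (8 * t * n) with hδ₀
  have hδ₀0 : 0 < δ₀ := by positivity
  -- the radius
  obtain ⟨δ, hδ1, hδ2⟩ : ∃ δ ∈ Set.Ioc (δ₀ / 2) δ₀,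
      δ ∉ (((Z ×ˢ S).image fun p : ℂ × ℂ => ‖p.1 - p.2‖ : Finset ℝ) : Set ℝ) := by
    have h1 : (Set.Ioc (δ₀ / 2) δ₀).Infinite := Set.Ioc_infinite (by linarith)
    exact h1.exists_notMem_finset _
  have hδ0 : 0 < δ := by linarith [hδ1.1]
  have hδne : ∀ z ∈ Z, ∀ s ∈ S, ‖z - s‖ ≠ δ := by
    intro z hz s hs h
    apply hδ2
    rw [Finset.mem_coe, Finset.mem_image]
    exact ⟨(z, s), Finset.mem_product.mpr ⟨hz, hs⟩, h⟩
  obtain ⟨v, hv1, hv2⟩ := exists_position Z S w hw δ hδ0 hne hδne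
  have hv0 : v ≠ 0 := by
    rw [← norm_pos_iff, hv1]
    exact hδ0
  have hδle : δ ≤ η / (8 * t) := by
    refine hδ1.2.trans ?_
    rw [hδ₀]
    apply div_le_div_of_nonneg_left hη.le (by positivity)
    nlinarith
  have hroot : ∀ x ∈ nthRootsFinset w (1 : ℂ), ‖x‖ = 1 := by
    intro x hx
    have h1 : x ^ w = 1 := (mem_nthRootsFinset hw _).mp hx
    have h2 : ‖x‖ ^ w = 1 ^ w := by rw [← norm_pow, h1, norm_one, one_pow]
    exact (pow_left_inj₀ (norm_nonneg _) zero_le_one hw.ne').mp h2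
  have hcard : (nthRootsFinset w (1 : ℂ)).card = w :=
    (Complex.isPrimitiveRoot_exp w hw.ne').card_nthRootsFinset
  have hce := charge_energy_cyc S hS w hw v hv0 hη hη1 hsep hE (by rw [hv1]; exact hδle)
  -- the family of points
  let ι := (↥Z) ⊕ (↥S × ↥(nthRootsFinset w (1 : ℂ)))
  let P : ι → ℂ := Sum.elim (fun z => (z : ℂ)) (fun p => (p.1 : ℂ) + v * (p.2 : ℂ))
  have hPinj : Function.Injective P := by
    rintro (z | ⟨s, x⟩) (z' | ⟨s', x'⟩) h
    · have : (z : ℂ) = z' := h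
      rw [Subtype.ext this]
    · exfalso
      have h1 : (z : ℂ) = (s' : ℂ) + v * (x' : ℂ) := h
      apply hδne z z.2 s' s'.2
      rw [h1, add_sub_cancel_left, norm_mul, hroot x' x'.2, mul_one, hv1]
    · exfalso
      have h1 : (s : ℂ) + v * (x : ℂ) = (z' : ℂ) := h
      apply hδne z' z'.2 s s.2
      rw [← h1, add_sub_cancel_left, norm_mul, hroot x x.2, mul_one, hv1]
    · have h1 : (s : ℂ) + v * (x : ℂ) = (s' : ℂ) + v * (x' : ℂ) := h
      by_cases hss : (s : ℂ) = s'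
      · rw [hss, add_right_inj, mul_right_inj' hv0] at h1
        rw [Subtype.ext hss, Subtype.ext h1]
      · exfalso
        have h2 := hsep s s.2 s' s'.2 hss
        have h3 : (s : ℂ) - s' = v * (x' - x) := by linear_combination h1
        rw [h3, norm_mul, hv1] at h2
        have h4 : ‖(x' : ℂ) - x‖ ≤ 2 := by
          have := norm_sub_le (x' : ℂ) x
          rw [hroot x x.2, hroot x' x'.2] at this
          linarith
        have h5 : δ * ‖(x' : ℂ) - x‖ ≤ (η / (8 * t)) * 2 :=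
          mul_le_mul hδle h4 (norm_nonneg _) (by positivity)
        have h6 : (η / (8 * t)) * 2 < η := by
          rw [div_mul_eq_mul_div, div_lt_iff₀ (by positivity)]
          nlinarith
        linarith
  have hne1 : Nonempty Z := hZ.to_subtype
  have hne' : Nonempty ι := ⟨Sum.inl (Classical.choice hne1)⟩
  have hE' := energy_fintype (X ^ 2 : ℤ[X]) green_sq.monic green_sq.deg green_sq.hC green_sq.hG0
    green_sq.hG1 green_sq.hG2 P hPinj
  have hcardι : Fintype.card ι = Z.card + S.card * w := by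
    rw [Fintype.card_sum, Fintype.card_prod, Fintype.card_coe, Fintype.card_coe,
      Fintype.card_coe, hcard]
  rw [hcardι, mul_zero, zero_mul, add_zero] at hE'
  -- the sum of the Green function
  have hGsum : ∑ i, Real.posLog ‖P i‖ ≤ ∑ z ∈ Z, Real.posLog ‖z‖ + 1 := by
    rw [Fintype.sum_sum_type]
    refine add_le_add ?_ ?_
    · exact (Finset.sum_coe_sort Z fun z => Real.posLog ‖z‖).le
    · have h1 : ∀ p : ↥S × ↥(nthRootsFinset w (1 : ℂ)), Real.posLog ‖P (Sum.inr p)‖ ≤ δ := by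
        intro p
        have h2 : ‖P (Sum.inr p)‖ ≤ 1 + δ := by
          have h3 : P (Sum.inr p) = (p.1 : ℂ) + v * (p.2 : ℂ) := rfl
          rw [h3]
          refine (norm_add_le _ _).trans ?_
          rw [norm_mul, hroot _ p.2.2, mul_one, hS1 _ p.1.2, hv1]
        refine (Real.posLog_le_posLog (norm_nonneg _) h2).trans ?_
        rw [Real.posLog_eq_log (by rw [abs_of_pos (by linarith)]; linarith)]
        have := Real.log_le_sub_one_of_pos (by linarith : 0 < 1 + δ)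
        linarith
      refine (Finset.sum_le_card_nsmul _ _ δ fun p _ => h1 p).trans ?_
      rw [Finset.card_univ, Fintype.card_prod, Fintype.card_coe, Fintype.card_coe, hcard,
        nsmul_eq_mul]
      push_cast
      rw [← ht]
      have h2 : δ ≤ 1 / n := by
        refine hδ1.2.trans ?_
        rw [hδ₀, div_le_div_iff₀ (by positivity) (by positivity)]
        nlinarith
      calc t * w * δ ≤ n * (1 / n) := mul_le_mul htw h2 hδ0.le (by linarith)
        _ = 1 := by field_simp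
  -- the energy
  have hEsum : ∑ i, ∑ j, Real.log ‖P i - P j‖ =
      ∑ z ∈ Z, ∑ z' ∈ Z, Real.log ‖z - z'‖ +
      2 * ∑ z ∈ Z, ∑ s ∈ S, ∑ x ∈ nthRootsFinset w (1 : ℂ), Real.log ‖z - (s + v * x)‖ +
      ∑ s ∈ S, ∑ s' ∈ S, ∑ x ∈ nthRootsFinset w (1 : ℂ), ∑ y ∈ nthRootsFinset w (1 : ℂ),
        Real.log ‖(s + v * x) - (s' + v * y)‖ := by
    have e1 : ∑ z : Z, ∑ z' : Z, Real.log ‖(z : ℂ) - (z' : ℂ)‖ =
        ∑ z ∈ Z, ∑ z' ∈ Z, Real.log ‖z - z'‖ := by
      rw [← Finset.sum_coe_sort Z (fun z => ∑ w ∈ Z, Real.log ‖z - w‖)]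
      refine Finset.sum_congr rfl fun z _ => ?_
      rw [← Finset.sum_coe_sort Z (fun w => Real.log ‖(z : ℂ) - w‖)]
    have e2 : ∑ z : Z, ∑ p : ↥S × ↥(nthRootsFinset w (1 : ℂ)),
        Real.log ‖(z : ℂ) - ((p.1 : ℂ) + v * (p.2 : ℂ))‖ =
        ∑ z ∈ Z, ∑ s ∈ S, ∑ x ∈ nthRootsFinset w (1 : ℂ), Real.log ‖z - (s + v * x)‖ := by
      rw [← Finset.sum_coe_sort Z]
      refine Finset.sum_congr rfl fun z _ => ?_
      rw [Fintype.sum_prod_type, ← Finset.sum_coe_sort S]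
      refine Finset.sum_congr rfl fun s _ => ?_
      rw [← Finset.sum_coe_sort (nthRootsFinset w (1 : ℂ))]
    have e3 : ∑ p : ↥S × ↥(nthRootsFinset w (1 : ℂ)), ∑ z : Z,
        Real.log ‖((p.1 : ℂ) + v * (p.2 : ℂ)) - (z : ℂ)‖ =
        ∑ z ∈ Z, ∑ s ∈ S, ∑ x ∈ nthRootsFinset w (1 : ℂ), Real.log ‖z - (s + v * x)‖ := by
      rw [← e2, Finset.sum_comm]
      refine Finset.sum_congr rfl fun z _ => Finset.sum_congr rfl fun p _ => ?_
      rw [norm_sub_rev]
    have e4 : ∑ p : ↥S × ↥(nthRootsFinset w (1 : ℂ)), ∑ p' : ↥S × ↥(nthRootsFinset w (1 : ℂ)),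
        Real.log ‖((p.1 : ℂ) + v * (p.2 : ℂ)) - ((p'.1 : ℂ) + v * (p'.2 : ℂ))‖ =
        ∑ s ∈ S, ∑ s' ∈ S, ∑ x ∈ nthRootsFinset w (1 : ℂ), ∑ y ∈ nthRootsFinset w (1 : ℂ),
        Real.log ‖(s + v * x) - (s' + v * y)‖ := by
      rw [Fintype.sum_prod_type, ← Finset.sum_coe_sort S]
      refine Finset.sum_congr rfl fun s _ => ?_
      have e5 : ∀ x : ↥(nthRootsFinset w (1 : ℂ)),
          ∑ p' : ↥S × ↥(nthRootsFinset w (1 : ℂ)),
            Real.log ‖((s : ℂ) + v * (x : ℂ)) - ((p'.1 : ℂ) + v * (p'.2 : ℂ))‖ =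
          ∑ s' ∈ S, ∑ y ∈ nthRootsFinset w (1 : ℂ),
            Real.log ‖((s : ℂ) + v * (x : ℂ)) - (s' + v * y)‖ := by
        intro x
        rw [Fintype.sum_prod_type, ← Finset.sum_coe_sort S]
        refine Finset.sum_congr rfl fun s' _ => ?_
        rw [← Finset.sum_coe_sort (nthRootsFinset w (1 : ℂ))]
      rw [Finset.sum_congr rfl fun x _ => e5 x,
        Finset.sum_coe_sort (nthRootsFinset w (1 : ℂ)) (fun x => ∑ s' ∈ S,
          ∑ y ∈ nthRootsFinset w (1 : ℂ), Real.log ‖((s : ℂ) + v * x) - (s' + v * y)‖),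
        Finset.sum_comm]
    have e6 : ∑ i, ∑ j, Real.log ‖P i - P j‖ =
        (∑ z : Z, ∑ z' : Z, Real.log ‖(z : ℂ) - (z' : ℂ)‖ +
        ∑ z : Z, ∑ p : ↥S × ↥(nthRootsFinset w (1 : ℂ)),
          Real.log ‖(z : ℂ) - ((p.1 : ℂ) + v * (p.2 : ℂ))‖) +
        (∑ p : ↥S × ↥(nthRootsFinset w (1 : ℂ)), ∑ z : Z,
          Real.log ‖((p.1 : ℂ) + v * (p.2 : ℂ)) - (z : ℂ)‖ +
        ∑ p : ↥S × ↥(nthRootsFinset w (1 : ℂ)), ∑ p' : ↥S × ↥(nthRootsFinset w (1 : ℂ)),
          Real.log ‖((p.1 : ℂ) + v * (p.2 : ℂ)) - ((p'.1 : ℂ) + v * (p'.2 : ℂ))‖) := by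
      rw [Fintype.sum_sum_type, ← Finset.sum_add_distrib, ← Finset.sum_add_distrib]
      congr 1
      · refine Finset.sum_congr rfl fun z _ => ?_
        rw [Fintype.sum_sum_type]
        rfl
      · refine Finset.sum_congr rfl fun z _ => ?_
        rw [Fintype.sum_sum_type]
        rfl
    rw [e6, e1, e2, e3, e4]
    ring
  rw [hEsum] at hE'
  -- the logarithms
  have hNc : (((Z.card + S.card * w : ℕ)) : ℝ) = n + t * w := by
    push_cast
    rfl
  rw [hNc] at hE'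
  have hN2 : n + t * w ≤ 2 * n := by linarith
  have hNpos : 0 < n + t * w := by positivity
  have hl2 : Real.log 2 ≤ 1 := by
    have := Real.log_two_lt_d9
    linarith
  have hlogN : Real.log (n + t * w) ≤ l := by
    have h1 := Real.log_le_log hNpos hN2
    rw [Real.log_mul two_ne_zero (by linarith)] at h1
    linarith
  have hgs : 0 ≤ ∑ z ∈ Z, Real.posLog ‖z‖ := Finset.sum_nonneg fun z _ => Real.posLog_nonneg
  set g : ℝ := ∑ z ∈ Z, Real.posLog ‖z‖ with hg
  have h1 : (n + t * w) * ∑ i, Real.posLog ‖P i‖ + (n + t * w) * Real.log (n + t * w) ≤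
      2 * n * (g + 1 + l) := by
    rw [← mul_add]
    apply mul_le_mul hN2 (by linarith) _ (by linarith)
    refine add_nonneg (Finset.sum_nonneg fun i _ => Real.posLog_nonneg) (Real.log_nonneg ?_)
    have : 0 ≤ t * w := by positivity
    linarith
  have hlogδ : Real.log (1 / ‖v‖) ≤ 15 * l := by
    have h2 : 1 / ‖v‖ ≤ 16 * t * n * (1 / η) := by
      rw [hv1, div_le_iff₀ hδ0]
      have h3 := hδ1.1
      rw [hδ₀] at h3
      have h4 : η / (8 * t * n) < 2 * δ := by linarith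
      rw [div_lt_iff₀ (by positivity)] at h4
      have h5 : 1 / η * η = 1 := by field_simp
      have h6 : (0:ℝ) < 1 / η := by positivity
      nlinarith
    have h3 := Real.log_le_log (by positivity) h2
    rw [Real.log_mul (by positivity) (by positivity), Real.log_mul (by positivity) (by linarith),
      Real.log_mul (by norm_num) (by linarith)] at h3
    have h4 : Real.log 16 ≤ 3 := by
      have : (16:ℝ) = 2 ^ 4 := by norm_num
      rw [this, Real.log_pow]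
      have := Real.log_two_lt_d9
      push_cast
      linarith
    have h5 : Real.log t ≤ Real.log n := Real.log_le_log (by linarith) htn
    linarith
  have h2 : t * (w : ℝ) ^ 2 * (1 + Real.log (1 / ‖v‖)) ≤ t * (w : ℝ) ^ 2 * (16 * l) :=
    mul_le_mul_of_nonneg_left (by linarith) (by positivity)
  have h3 : 1 ≤ n * l := by nlinarith
  have h4 : 0 ≤ n * g := by positivity
  have h5 : 0 ≤ t * (w : ℝ) ^ 2 * l := by positivity
  have h6 : n ≤ n * l := by nlinarith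
  nlinarith

end Pool.Agent.V1156.RC
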