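import Mathlib
import Pool.Agent.V1156.RC.En
import Pool.Agent.TH860.LP.Rel2

/-!
# Resultants with products of cyclotomic polynomials: the inequality in a number field
-/

set_option autoImplicit false

open Finset Polynomial Module Filter Topology Real IntermediateField

namespace Pool.Agent.V1156.RC

open Pool.Agent.W666.DL Pool.Agent.W666.DY Pool.Agent.Y642.LZ Pool.Agent.Y642.DL
  Pool.Agent.V1156.DL Pool.Agent.H388SL Pool.Agent.H389R3.LR Pool.Agent.H389R3.LP
  Pool.Agent.TH860.LP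

/-- **the energy inequality for powers of the elements of a set** -/
theorem fld_cyc (b : ℤ[X]) (S : Finset ℂ) (hS : S.Nonempty)
    (hbS : b.map (Int.castRingHom ℂ) = ∏ s ∈ S, (X - Polynomial.C s))
    (hS1 : ∀ s ∈ S, ‖s‖ = 1) {η : ℝ} (hη : 0 < η) (hη1 : η ≤ 1)
    (hsep : ∀ s ∈ S, ∀ s' ∈ S, s ≠ s' → η ≤ ‖s - s'‖)
    {L : Type} [Field L] [NumberField L] (R : Finset L) (k w : ℕ)
    (hR : R.Nonempty) (hk : 1 ≤ k) (hηl : Real.log (1 / η) ≤ 10 * (1 + Real.log R.card))
    (hint : ∀ z ∈ R, IsIntegral ℤ z)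
    (hinj : ∀ z ∈ R, ∀ z' ∈ R, ∀ i j : ℕ, 1 ≤ i → i ≤ k → 1 ≤ j → j ≤ k → z ^ i = z' ^ j →
        z = z' ∧ i = j)
    (hdiv : ∀ j : ℕ, 1 ≤ j → j ≤ k → b ∣ b.comp (X ^ j))
    (hne : ∀ z ∈ R, ∀ j : ℕ, 1 ≤ j → j ≤ k → aeval (z ^ j) b ≠ 0) (hw1 : 1 ≤ w)
    (hw2 : S.card * w ≤ R.card * k) :
    (w : ℝ) * (k * ∑ z ∈ R, NL (aeval z b)) ≤
      10 * (finrank ℚ L * ((S.card * (w : ℝ) ^ 2 + R.card * k) * (1 + Real.log (R.card * k))) +
        R.card * k * (k ^ 2 * ∑ z ∈ R, lam z)) := by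
  classical
  obtain ⟨hr0, hdsum⟩ := disc_sum b S hbS
  have hES : 0 ≤ ∑ s ∈ S, ∑ s' ∈ S, Real.log ‖s - s'‖ := by
    have h1 : ∑ s ∈ S, ∑ s' ∈ S, Real.log ‖s - s'‖ =
        ∑ s ∈ S, ∑ s' ∈ S, (if s = s' then 0 else Real.log ‖s - s'‖) := by
      refine Finset.sum_congr rfl fun x _ => Finset.sum_congr rfl fun y _ => ?_
      split_ifs with h
      · rw [h, sub_self, norm_zero, Real.log_zero]
      · rfl
    rw [h1, hdsum]
    apply Real.log_nonneg
    have := Int.one_le_abs hr0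
    exact_mod_cast this
  have hinjOn : Set.InjOn (fun p : L × ℕ => p.1 ^ p.2) (↑(R ×ˢ Finset.Icc 1 k) : Set (L × ℕ)) := by
    rintro ⟨z, i⟩ h1 ⟨z', j⟩ h2 h
    rw [Finset.mem_coe, Finset.mem_product, Finset.mem_Icc] at h1 h2
    obtain ⟨e1, e2⟩ := hinj z h1.1 z' h2.1 i j h1.2.1 h1.2.2 h2.2.1 h2.2.2 h
    rw [e1, e2]
  set Z : Finset L := (R ×ˢ Finset.Icc 1 k).image (fun p : L × ℕ => p.1 ^ p.2) with hZ
  have hsumZ : ∀ g : L → ℝ, ∑ x ∈ Z, g x = ∑ z ∈ R, ∑ j ∈ Finset.Icc 1 k, g (z ^ j) := by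
    intro g
    rw [hZ, Finset.sum_image hinjOn, Finset.sum_product]
  have hcard : Z.card = R.card * k := by
    rw [hZ, Finset.card_image_of_injOn hinjOn, Finset.card_product, Nat.card_Icc]
    simp
  have hZne : Z.Nonempty := by
    rw [← Finset.card_pos, hcard]
    exact Nat.mul_pos (Finset.card_pos.mpr hR) hk
  have hZmem : ∀ x ∈ Z, IsIntegral ℤ x ∧ aeval x b ≠ 0 := by
    intro x hx
    obtain ⟨⟨z, j⟩, h1, rfl⟩ := Finset.mem_image.mp hx
    rw [Finset.mem_product, Finset.mem_Icc] at h1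
    exact ⟨(hint z h1.1).pow j, hne z h1.1 j h1.2.1 h1.2.2⟩
  have hηZ : Real.log (1 / η) ≤ 10 * (1 + Real.log Z.card) := by
    refine hηl.trans ?_
    have h1 : (R.card : ℝ) ≤ Z.card := by
      rw [hcard]
      exact_mod_cast Nat.le_mul_of_pos_right _ hk
    have h2 : (0:ℝ) < R.card := by exact_mod_cast Finset.card_pos.mpr hR
    have h3 := Real.log_le_log h2 h1
    linarith
  have hval : ∀ σ : L →ₐ[ℚ] ℂ, ∀ x : L, aeval (σ x) b = σ (aeval x b) := fun σ x =>
    aeval_algHom_apply (σ.restrictScalars ℤ) x b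
  -- one embedding
  have hσ : ∀ σ : L →ₐ[ℚ] ℂ, (w : ℝ) * ∑ x ∈ Z, Real.log ‖σ (aeval x b)‖ +
      (1 / 2) * ∑ x ∈ Z, ∑ y ∈ Z, Real.log ‖σ (x - y)‖ ≤
      10 * ((S.card * (w : ℝ) ^ 2 + Z.card) * (1 + Real.log Z.card) +
        Z.card * ∑ x ∈ Z, Real.log (max 1 ‖σ x‖)) := by
    intro σ
    have hσinj : Set.InjOn (fun x : L => σ x) (Z : Set L) := fun x _ y _ h =>
      σ.toRingHom.injective h
    have hc : (Z.image fun x : L => σ x).card = Z.card := Finset.card_image_of_injOn hσinj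
    have hsub : ∀ z ∈ (Z.image fun x : L => σ x), ∀ s ∈ S, z ≠ s := by
      intro z hz s hs h
      obtain ⟨x, hx, rfl⟩ := Finset.mem_image.mp hz
      have h1 := (mem_zeros hbS s).mp hs
      rw [← h, hval] at h1
      exact (hZmem x hx).2 ((map_eq_zero σ).mp h1)
    have h := energy_cyc S (Z.image fun x : L => σ x) hS (hZne.image _) hS1 hη hη1 hsep hES
      (by rw [hc]; exact hηZ) hsub w (by omega) (by rw [hc, hcard]; exact hw2)
    rw [hc, Finset.sum_image hσinj, Finset.sum_image hσinj, Finset.sum_image hσinj] at h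
    have e1 : ∑ x ∈ Z, ∑ s ∈ S, Real.log ‖σ x - s‖ =
        ∑ x ∈ Z, Real.log ‖σ (aeval x b)‖ := by
      refine Finset.sum_congr rfl fun x hx => ?_
      rw [← hval, aeval_prod hbS (σ x), norm_prod, Real.log_prod]
      intro s hs
      rw [norm_ne_zero_iff, sub_ne_zero]
      exact hsub _ (Finset.mem_image_of_mem _ hx) s hs
    have e2 : ∑ x ∈ Z, ∑ z' ∈ Z.image (fun x : L => σ x), Real.log ‖σ x - z'‖ =
        ∑ x ∈ Z, ∑ y ∈ Z, Real.log ‖σ (x - y)‖ := by
      refine Finset.sum_congr rfl fun x hx => ?_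
      rw [Finset.sum_image hσinj]
      refine Finset.sum_congr rfl fun y hy => ?_
      rw [map_sub]
    have e3 : ∑ x ∈ Z, Real.posLog ‖σ x‖ = ∑ x ∈ Z, Real.log (max 1 ‖σ x‖) := by
      refine Finset.sum_congr rfl fun x hx => ?_
      rw [Real.posLog_eq_log_max_one (norm_nonneg _)]
    rw [e1, e2, e3] at h
    exact h
  -- the sum over the embeddings
  have hsum := Finset.sum_le_sum fun (σ : L →ₐ[ℚ] ℂ) (_ : σ ∈ Finset.univ) => hσ σ
  rw [Finset.sum_add_distrib, ← Finset.mul_sum, ← Finset.mul_sum, ← Finset.mul_sum,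
    Finset.sum_add_distrib, Finset.sum_const, Finset.card_univ, AlgHom.card, nsmul_eq_mul,
    ← Finset.mul_sum] at hsum
  -- the values
  have hvals : (k : ℝ) * ∑ z ∈ R, NL (aeval z b) ≤
      ∑ σ : L →ₐ[ℚ] ℂ, ∑ x ∈ Z, Real.log ‖σ (aeval x b)‖ := by
    rw [Finset.sum_comm]
    have e1 : ∑ x ∈ Z, ∑ σ : L →ₐ[ℚ] ℂ, Real.log ‖σ (aeval x b)‖ =
        ∑ z ∈ R, ∑ j ∈ Finset.Icc 1 k, NL (aeval (z ^ j) b) := hsumZ fun x => NL (aeval x b)
    rw [e1, Finset.mul_sum]
    refine Finset.sum_le_sum fun z hz => ?_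
    calc (k : ℝ) * NL (aeval z b) = ∑ j ∈ Finset.Icc 1 k, NL (aeval z b) := by
          rw [Finset.sum_const, Nat.card_Icc, nsmul_eq_mul]
          simp
      _ ≤ _ := Finset.sum_le_sum fun j hj => by
          rw [Finset.mem_Icc] at hj
          obtain ⟨U, hU⟩ := hdiv j hj.1 hj.2
          have h1 : aeval (z ^ j) b = aeval z b * aeval z U := by
            rw [← map_mul, ← hU, aeval_comp, map_pow, aeval_X]
          have h2 := hne z hz j hj.1 hj.2
          rw [h1] at h2 ⊢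
          rw [NL_mul (left_ne_zero_of_mul h2) (right_ne_zero_of_mul h2)]
          have h3 : IsIntegral ℤ (aeval z U) := isIntegral_aevalZ (hint z hz) U
          have := NL_nonneg h3 (right_ne_zero_of_mul h2)
          linarith
  have hE : 0 ≤ ∑ σ : L →ₐ[ℚ] ℂ, ∑ x ∈ Z, ∑ y ∈ Z, Real.log ‖σ (x - y)‖ := by
    rw [Finset.sum_comm]
    refine Finset.sum_nonneg fun x hx => ?_
    rw [Finset.sum_comm]
    refine Finset.sum_nonneg fun y hy => ?_
    by_cases hxy : x = y
    · rw [hxy, sub_self]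
      simp
    · exact NL_nonneg ((hZmem x hx).1.sub (hZmem y hy).1) (sub_ne_zero.mpr hxy)
  have hH : ∑ σ : L →ₐ[ℚ] ℂ, ∑ x ∈ Z, Real.log (max 1 ‖σ x‖) ≤ k ^ 2 * ∑ z ∈ R, lam z := by
    rw [Finset.sum_comm]
    have e1 : ∑ x ∈ Z, ∑ σ : L →ₐ[ℚ] ℂ, Real.log (max 1 ‖σ x‖) =
        ∑ z ∈ R, ∑ j ∈ Finset.Icc 1 k, lam (z ^ j) := hsumZ fun x => lam x
    rw [e1, Finset.mul_sum]
    refine Finset.sum_le_sum fun z hz => ?_
    calc ∑ j ∈ Finset.Icc 1 k, lam (z ^ j) ≤ ∑ j ∈ Finset.Icc 1 k, (k : ℝ) * lam z := by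
          refine Finset.sum_le_sum fun j hj => ?_
          rw [Finset.mem_Icc] at hj
          rw [lam_pow]
          exact mul_le_mul_of_nonneg_right (by exact_mod_cast hj.2) (lam_nonneg z)
      _ = (k : ℝ) ^ 2 * lam z := by
          rw [Finset.sum_const, Nat.card_Icc, nsmul_eq_mul]
          simp
          ring
  have hcR : (Z.card : ℝ) = R.card * k := by rw [hcard]; push_cast; ring
  rw [hcR] at hsum
  have h1 := mul_le_mul_of_nonneg_left hvals (Nat.cast_nonneg (α := ℝ) w)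
  have h2 : (R.card : ℝ) * k * ∑ σ : L →ₐ[ℚ] ℂ, ∑ x ∈ Z, Real.log (max 1 ‖σ x‖) ≤
      R.card * k * (k ^ 2 * ∑ z ∈ R, lam z) := mul_le_mul_of_nonneg_left hH (by positivity)
  nlinarith

/-- the absolute value of the resultant of the monic polynomial `f` and of `b` -/
noncomputable def resAbs (f b : ℤ[X]) : ℝ :=
  ((f.map (Int.castRingHom ℂ)).roots.map fun y => ‖aeval y b‖).prod

lemma NL_value {L : Type} [Field L] [NumberField L] {z : L} (hz : IsIntegral ℤ z) (b : ℤ[X])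
    (h : aeval z b ≠ 0) :
    NL (aeval z b) = finrank ℚ L * (Real.log (resAbs (minpoly ℤ z) b) / (minpoly ℤ z).natDegree) := by
  classical
  have h1 := logNorm_eq b z
  have h3 : logNorm b z = Real.log (resAbs (minpoly ℤ z) b) := by
    unfold logNorm resAbs
    rw [minpolyZ_map hz, Finset.prod_eq_multiset_prod, roots_multiset_prod_X_sub_C]
    have h4 : ((conjSet z).val.map fun y => ‖aeval y b‖).prod = ∏ y ∈ conjSet z, ‖aeval y b‖ := rfl
    rw [h4, Real.log_prod]
    intro y hy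
    obtain ⟨σ, hσ⟩ := mem_conjSet.mp hy
    have h5 : aeval (σ z) b = σ (aeval z b) := aeval_algHom_apply (σ.restrictScalars ℤ) z b
    rw [← hσ, norm_ne_zero_iff, h5]
    exact (map_ne_zero σ).mpr h
  have h4 : (minpoly ℚ z).natDegree = (minpoly ℤ z).natDegree := by
    rw [minpoly.isIntegrallyClosed_eq_field_fractions' ℚ hz, (minpoly.monic hz).natDegree_map]
  rw [h3, h4] at h1
  have hn : (0:ℝ) < (minpoly ℤ z).natDegree := by exact_mod_cast minpoly.natDegree_pos hz
  have hD0 : (0:ℝ) < finrank ℚ L := by exact_mod_cast (finrank_pos : 0 < finrank ℚ L)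
  rw [h1]
  field_simp

/-- **the inequality for a monic irreducible polynomial `f`** -/
theorem poly_cyc (b : ℤ[X]) (S : Finset ℂ) (hS : S.Nonempty)
    (hbS : b.map (Int.castRingHom ℂ) = ∏ s ∈ S, (X - Polynomial.C s))
    (hS1 : ∀ s ∈ S, ‖s‖ = 1) {η : ℝ} (hη : 0 < η) (hη1 : η ≤ 1)
    (hsep : ∀ s ∈ S, ∀ s' ∈ S, s ≠ s' → η ≤ ‖s - s'‖)
    (f : ℤ[X]) (hf : Irreducible f) (hfm : f.Monic)
    (hηl : Real.log (1 / η) ≤ 10 * (1 + Real.log f.natDegree)) (k w : ℕ) (hk : 1 ≤ k)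
    (hcase : k = 1 ∨ (0 < Real.log (f.map (Int.castRingHom ℂ)).mahlerMeasure ∧
      (∀ z z' : ℂ, aeval z f = 0 → aeval z' f = 0 → z ≠ z' → ∀ j : ℕ, 1 ≤ j → z ^ j ≠ z' ^ j) ∧
      ∀ j : ℕ, 1 ≤ j → j ≤ k → b ∣ b.comp (X ^ j)))
    (hbroot : ∀ s ∈ S, ∃ N : ℕ, 0 < N ∧ s ^ N = 1)
    (hne : ∀ z : ℂ, aeval z f = 0 → aeval z b ≠ 0) (hw1 : 1 ≤ w)
    (hw2 : S.card * w ≤ f.natDegree * k) :
    (w : ℝ) * (k * Real.log (resAbs f b)) ≤
      10 * ((S.card * (w : ℝ) ^ 2 + f.natDegree * k) * (1 + Real.log (f.natDegree * k)) +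
        f.natDegree * k * (k ^ 2 * Real.log (f.map (Int.castRingHom ℂ)).mahlerMeasure)) := by
  classical
  set L := IntermediateField.adjoin ℚ (f.rootSet ℂ) with hL
  have hint : ∀ z ∈ f.rootSet ℂ, IsIntegral ℤ z := fun z hz =>
    ⟨f, hfm, by rw [← Polynomial.aeval_def]; exact (mem_rootSet.mp hz).2⟩
  have : Finite (f.rootSet ℂ) := (rootSet_finite f ℂ).to_subtype
  have hfin : FiniteDimensional ℚ L := IntermediateField.finiteDimensional_adjoin
    fun z hz => (hint z hz).tower_top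
  have : NumberField L := { to_charZero := inferInstance, to_finiteDimensional := hfin }
  set Rt : Finset ℂ := (rootSet_finite f ℂ).toFinset with hRt
  have hmemRt : ∀ z, z ∈ Rt ↔ aeval z f = 0 := by
    intro z
    rw [hRt, Set.Finite.mem_toFinset, mem_rootSet]
    exact ⟨fun h => h.2, fun h => ⟨hfm.ne_zero, h⟩⟩
  have hmemS : ∀ z ∈ Rt, z ∈ f.rootSet ℂ := fun z hz =>
    mem_rootSet.mpr ⟨hfm.ne_zero, (hmemRt z).mp hz⟩
  have hmemL : ∀ z ∈ Rt, z ∈ L := fun z hz => IntermediateField.subset_adjoin ℚ _ (hmemS z hz)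
  set R : Finset L := Rt.attach.image
    fun z : {x // x ∈ Rt} => (⟨(z : ℂ), hmemL z z.2⟩ : L) with hR
  have hRmem : ∀ x ∈ R, (x : ℂ) ∈ Rt := by
    intro x hx
    obtain ⟨z, _, rfl⟩ := Finset.mem_image.mp hx
    exact z.2
  have hRint : ∀ x ∈ R, IsIntegral ℤ x := by
    intro x hx
    have h1 := hint _ (hmemS _ (hRmem x hx))
    exact (isIntegral_algebraMap_iff (algebraMap L ℂ).injective).mp h1
  have hRmin : ∀ x ∈ R, minpoly ℤ x = f := by
    intro x hx
    have h1 : minpoly ℤ (x : ℂ) = minpoly ℤ x :=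
      minpoly.algebraMap_eq (algebraMap L ℂ).injective x
    rw [← h1]
    have hxi := hint _ (hmemS _ (hRmem x hx))
    have h2 := minpoly.isIntegrallyClosed_dvd hxi ((hmemRt _).mp (hRmem x hx))
    have h3 : Associated (minpoly ℤ (x : ℂ)) f :=
      (minpoly.irreducible hxi).associated_of_dvd hf h2
    exact eq_of_monic_of_associated (minpoly.monic hxi) hfm h3
  -- a root
  have hdeg : 0 < f.natDegree := by
    by_contra hcon
    have h0 : f.natDegree = 0 := by omega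
    have h1 := hfm.natDegree_eq_zero.mp h0
    rw [h1] at hf
    exact hf.not_isUnit isUnit_one
  obtain ⟨α, hα⟩ : ∃ α : ℂ, aeval α f = 0 := by
    apply IsAlgClosed.exists_aeval_eq_zero
    rw [degree_eq_natDegree hfm.ne_zero]
    exact_mod_cast hdeg.ne'
  have hαR : α ∈ Rt := (hmemRt α).mpr hα
  set x₀ : L := ⟨α, hmemL α hαR⟩ with hx₀
  have hx₀R : x₀ ∈ R := Finset.mem_image.mpr ⟨⟨α, hαR⟩, Finset.mem_attach _ _, rfl⟩
  have hRcard : R.card = f.natDegree := by
    rw [hR, Finset.card_image_of_injective, Finset.card_attach]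
    · have h1 := minpolyZ_map (hRint x₀ hx₀R)
      rw [hRmin x₀ hx₀R] at h1
      have h2 : Rt = conjSet x₀ := by
        ext z
        rw [hmemRt, Polynomial.aeval_def, ← Polynomial.eval_map]
        change (f.map (Int.castRingHom ℂ)).eval z = 0 ↔ _
        rw [h1, eval_prod, Finset.prod_eq_zero_iff]
        constructor
        · rintro ⟨y, hy, h0⟩
          rw [eval_sub, eval_X, eval_C, sub_eq_zero] at h0
          rw [h0]
          exact hy
        · intro hz
          exact ⟨z, hz, by simp⟩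
      have h3 := congrArg Polynomial.natDegree h1
      rw [natDegree_prod_of_monic _ _ (fun z _ => monic_X_sub_C z), hfm.natDegree_map] at h3
      simp only [natDegree_X_sub_C, Finset.sum_const, smul_eq_mul, mul_one] at h3
      rw [h2, h3]
    · intro x y hxy
      exact Subtype.ext (congrArg (fun u : L => (u : ℂ)) hxy)
  set mm : ℝ := Real.log (f.map (Int.castRingHom ℂ)).mahlerMeasure with hmm
  have hlam : ∀ x ∈ R, lam x = finrank ℚ L * (mm / f.natDegree) := by
    intro x hx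
    rw [lam_root (hRint x hx), hRmin x hx]
  have hfr : (0 : ℝ) < finrank ℚ L := by exact_mod_cast finrank_pos (R := ℚ) (M := L)
  have hn0 : (0:ℝ) < f.natDegree := by exact_mod_cast hdeg
  have hpow : 0 < mm → ∀ x ∈ R, ∀ x' ∈ R, ∀ i j : ℕ, x ^ i = x' ^ j → i = j := by
    intro hpos x hx x' hx' i j hij
    have h1 := congrArg lam hij
    rw [lam_pow, lam_pow, hlam x hx, hlam x' hx'] at h1
    have h2 : 0 < (finrank ℚ L : ℝ) * (mm / f.natDegree) := by positivity
    have h3 : (i : ℝ) = j := mul_right_cancel₀ h2.ne' h1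
    exact_mod_cast h3
  have hbne : ∀ x ∈ R, aeval x b ≠ 0 := by
    intro x hx h
    apply hne (x : ℂ) ((hmemRt _).mp (hRmem x hx))
    have h1 : aeval (x : ℂ) b = algebraMap L ℂ (aeval x b) := aeval_algebraMap_apply ℂ x b
    rw [h1, h, map_zero]
  have h := fld_cyc b S hS hbS hS1 hη hη1 hsep R k w ⟨x₀, hx₀R⟩ hk (by rw [hRcard]; exact hηl)
    hRint
    (by
      intro x hx x' hx' i j hi1 hik hj1 hjk hij
      rcases hcase with h1 | ⟨hpos, h1, -⟩
      · have hi : i = 1 := by omega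
        have hj : j = 1 := by omega
        subst hi
        subst hj
        rw [pow_one, pow_one] at hij
        exact ⟨hij, rfl⟩
      · have e1 := hpow hpos x hx x' hx' i j hij
        refine ⟨?_, e1⟩
        subst e1
        by_contra hne'
        refine h1 x x' ((hmemRt _).mp (hRmem x hx)) ((hmemRt _).mp (hRmem x' hx'))
          (fun h2 => hne' (Subtype.ext h2)) i hi1 ?_
        exact congrArg (fun u : L => (u : ℂ)) hij)
    (by
      rcases hcase with h1 | ⟨-, -, h1⟩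
      · intro j hj1 hjk
        have hj : j = 1 := by omega
        subst hj
        rw [pow_one, comp_X]
      · exact h1)
    (by
      intro x hx j hj1 hjk
      rcases hcase with h1 | ⟨hpos, h1, -⟩
      · have hj : j = 1 := by omega
        subst hj
        rw [pow_one]
        exact hbne x hx
      · intro h2
        have h3 : aeval ((x : ℂ) ^ j) b = 0 := by
          have h4 : aeval ((x : ℂ) ^ j) b = algebraMap L ℂ (aeval (x ^ j) b) := by
            have := aeval_algebraMap_apply ℂ (x ^ j) b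
            rw [← this]
            rfl
          rw [h4, h2, map_zero]
        have h4 := (mem_zeros hbS _).mpr h3
        obtain ⟨N, hN, hN1⟩ := hbroot _ h4
        have h5 : x ^ (j * N) = x ^ 0 := by
          apply Subtype.ext
          rw [pow_zero, pow_mul]
          exact hN1
        have h6 := hpow hpos x hx x hx _ _ h5
        have : 0 < j * N := Nat.mul_pos hj1 hN
        omega) hw1 (by rw [hRcard]; exact hw2)
  rw [hRcard] at h
  have e1 : ∑ x ∈ R, NL (aeval x b) = finrank ℚ L * Real.log (resAbs f b) := by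
    have h1 : ∀ x ∈ R, NL (aeval x b) = finrank ℚ L * (Real.log (resAbs f b) / f.natDegree) := by
      intro x hx
      rw [NL_value (hRint x hx) b (hbne x hx), hRmin x hx]
    rw [Finset.sum_congr rfl h1, Finset.sum_const, hRcard, nsmul_eq_mul]
    field_simp
  have e2 : ∑ x ∈ R, lam x = finrank ℚ L * mm := by
    rw [Finset.sum_congr rfl hlam, Finset.sum_const, hRcard, nsmul_eq_mul]
    field_simp
  rw [e1, e2] at h
  have h2 : (finrank ℚ L : ℝ) * ((w : ℝ) * (k * Real.log (resAbs f b))) ≤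
      finrank ℚ L * (10 * ((S.card * (w : ℝ) ^ 2 + f.natDegree * k) *
        (1 + Real.log (f.natDegree * k)) + f.natDegree * k * (k ^ 2 * mm))) := by
    refine le_trans (le_of_eq ?_) (h.trans (le_of_eq ?_))
    · ring
    · ring
  exact le_of_mul_le_mul_left h2 hfr

end Pool.Agent.V1156.RC
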