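import Mathlib

/-!
# Choice of the parameters, resultants
-/

set_option autoImplicit false

namespace Pool.Agent.V1156.RC

lemma opt_c1 {Λ mm l : ℝ} {n t : ℕ} (ht : 1 ≤ t) (htn : t ≤ n) (hl : l = 1 + Real.log n)
    (hΛ : 80 * (Real.sqrt (n * t) * l) ≤ Λ)
    (H : ∀ w : ℕ, 1 ≤ w → t * w ≤ n → (w : ℝ) * Λ ≤ 10 * ((t * (w : ℝ) ^ 2 + n) * l + n * mm)) :
    min Λ (Λ ^ 2 / (n * l)) / (1600 * t) ≤ mm := by
  have hn : 1 ≤ n := ht.trans htn
  have hn1 : (1:ℝ) ≤ n := by exact_mod_cast hn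
  have ht1 : (1:ℝ) ≤ t := by exact_mod_cast ht
  have htn1 : (t:ℝ) ≤ n := by exact_mod_cast htn
  have hln : 0 ≤ Real.log n := Real.log_nonneg hn1
  have hl1 : 1 ≤ l := by linarith
  set s := Real.sqrt (n * t) with hs
  have hs2 : s ^ 2 = n * t := Real.sq_sqrt (by positivity)
  have hst : (t : ℝ) ≤ s := by
    rw [hs]
    apply Real.le_sqrt_of_sq_le
    nlinarith
  have hΛ0 : 0 < Λ := lt_of_lt_of_le (by positivity) hΛ
  set x := Λ / (40 * t * l) with hx
  have hxl : x * (40 * t * l) = Λ := by rw [hx]; field_simp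
  have hx2 : 2 ≤ x := by
    rw [hx, le_div_iff₀ (by positivity)]
    nlinarith
  rcases le_or_gt (t * x) n with hcase | hcase
  · set w := ⌊x⌋₊ with hw
    have hw1 : (w : ℝ) ≤ x := Nat.floor_le (by linarith)
    have hw2 : x < w + 1 := Nat.lt_floor_add_one x
    have hw3 : 1 ≤ w := by
      rw [hw, Nat.one_le_floor_iff]
      linarith
    have hw3' : (1:ℝ) ≤ w := by exact_mod_cast hw3
    have hw4 : t * w ≤ n := by
      have : (t : ℝ) * w ≤ n := le_trans (mul_le_mul_of_nonneg_left hw1 (by linarith)) hcase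
      exact_mod_cast this
    have hwx : x / 2 ≤ w := by linarith
    have h1 := H w hw3 hw4
    have h2 : 10 * (t * (w : ℝ) ^ 2 * l) ≤ w * Λ / 4 := by
      have h3 : 10 * (t * w * l) ≤ Λ / 4 := by
        have := mul_le_mul_of_nonneg_right hw1 (by positivity : 0 ≤ (t : ℝ) * l)
        nlinarith
      have := mul_le_mul_of_nonneg_left h3 (by linarith : (0:ℝ) ≤ w)
      nlinarith
    have h3 : 10 * (n * l) ≤ w * Λ / 4 := by
      have h4 : x / 2 * Λ ≤ w * Λ := mul_le_mul_of_nonneg_right hwx hΛ0.le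
      have h5 : 80 * (n * l) ≤ x * Λ := by
        have h6 : (80 * (s * l)) ^ 2 ≤ Λ ^ 2 := pow_le_pow_left₀ (by positivity) hΛ 2
        have h7 : (80 * (s * l)) ^ 2 = 6400 * (n * t) * l ^ 2 := by
          rw [mul_pow, mul_pow, hs2]; ring
        rw [h7] at h6
        have h8 : x * Λ * (40 * t * l) = Λ ^ 2 := by
          calc x * Λ * (40 * t * l) = (x * (40 * t * l)) * Λ := by ring
            _ = Λ ^ 2 := by rw [hxl]; ring
        have h9 : 80 * (n * l) * (40 * t * l) ≤ x * Λ * (40 * t * l) := by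
          rw [h8]
          have : 0 ≤ (n:ℝ) * t * l ^ 2 := by positivity
          nlinarith
        exact le_of_mul_le_mul_right h9 (by positivity)
      linarith
    have h4 : w * Λ / 2 ≤ 10 * (n * mm) := by nlinarith
    have h5 : x * Λ / 4 ≤ 10 * (n * mm) := by
      have := mul_le_mul_of_nonneg_right hwx hΛ0.le
      linarith
    have h6 : Λ ^ 2 / (n * l) / (1600 * t) ≤ mm := by
      rw [div_div, div_le_iff₀ (by positivity)]
      have h7 : Λ ^ 2 = x * Λ * (40 * t * l) := by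
        calc Λ ^ 2 = Λ * Λ := by ring
          _ = (x * (40 * t * l)) * Λ := by rw [hxl]
          _ = _ := by ring
      rw [h7]
      have h8 := mul_le_mul_of_nonneg_right h5 (by positivity : 0 ≤ 160 * (t:ℝ) * l)
      nlinarith
    refine le_trans ?_ h6
    exact div_le_div_of_nonneg_right (min_le_right _ _) (by positivity)
  · set y : ℝ := (n : ℝ) / t with hy
    have hy1 : 1 ≤ y := by
      rw [hy, le_div_iff₀ (by linarith)]
      linarith
    have hyt : y * t = n := by rw [hy]; field_simp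
    have hyx : y < x := by
      rw [hy, div_lt_iff₀ (by linarith)]
      linarith
    set w := ⌊y⌋₊ with hw
    have hw1 : (w : ℝ) ≤ y := Nat.floor_le (by linarith)
    have hw2 : y < w + 1 := Nat.lt_floor_add_one y
    have hw3 : 1 ≤ w := by
      rw [hw, Nat.one_le_floor_iff]
      linarith
    have hw3' : (1:ℝ) ≤ w := by exact_mod_cast hw3
    have hw4 : t * w ≤ n := by
      have : (t : ℝ) * w ≤ n := by
        have := mul_le_mul_of_nonneg_left hw1 (by linarith : (0:ℝ) ≤ t)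
        linarith
      exact_mod_cast this
    have hwy : y / 2 ≤ w := by linarith
    have h1 := H w hw3 hw4
    have h2 : 10 * (t * (w : ℝ) ^ 2 * l) ≤ w * Λ / 4 := by
      have h3 : 10 * (t * w * l) ≤ Λ / 4 := by
        have := mul_le_mul_of_nonneg_right (hw1.trans hyx.le) (by positivity : 0 ≤ (t : ℝ) * l)
        nlinarith
      have := mul_le_mul_of_nonneg_left h3 (by linarith : (0:ℝ) ≤ w)
      nlinarith
    have h3 : 10 * (n * l) ≤ w * Λ / 4 := by
      have h4 : y / 2 * Λ ≤ w * Λ := mul_le_mul_of_nonneg_right hwy hΛ0.le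
      have h5 : 80 * (n * l) ≤ y * Λ := by
        have h6 : 80 * (t * l) ≤ Λ := by
          refine le_trans ?_ hΛ
          exact mul_le_mul_of_nonneg_left (mul_le_mul_of_nonneg_right hst (by linarith))
            (by norm_num)
        have h7 := mul_le_mul_of_nonneg_left h6 (by linarith : 0 ≤ y)
        calc 80 * ((n:ℝ) * l) = y * (80 * (t * l)) := by rw [← hyt]; ring
          _ ≤ y * Λ := h7
      linarith
    have h4 : w * Λ / 2 ≤ 10 * (n * mm) := by nlinarith
    have h5 : y * Λ / 4 ≤ 10 * (n * mm) := by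
      have := mul_le_mul_of_nonneg_right hwy hΛ0.le
      linarith
    have h6 : Λ / (1600 * t) ≤ mm := by
      rw [div_le_iff₀ (by positivity)]
      have h7 : y * Λ ≤ y * (40 * t * mm) := by
        calc y * Λ ≤ 40 * (n * mm) := by linarith
          _ = y * (40 * t * mm) := by rw [← hyt]; ring
      have h8 := le_of_mul_le_mul_left h7 (by linarith)
      have h9 : 0 ≤ (t : ℝ) * mm := by linarith
      nlinarith
    refine le_trans ?_ h6
    exact div_le_div_of_nonneg_right (min_le_left _ _) (by positivity)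

lemma opt_c2 {Λ mm l : ℝ} {n t : ℕ} (ht : 1 ≤ t) (htn : t ≤ n) (hl : l = 1 + Real.log n)
    (hΛ : 160 * (Real.sqrt (n * t) * l ^ (3 / 4 : ℝ)) ≤ Λ) (hmm : 0 ≤ mm)
    (H : ∀ k w : ℕ, 1 ≤ k → 1 ≤ w → t * w ≤ n * k → (w : ℝ) * (k * Λ) ≤
      10 * ((t * (w : ℝ) ^ 2 + n * k) * (1 + Real.log (n * k)) + n * k * (k ^ 2 * mm))) :
    1 ≤ mm := by
  have hn : 1 ≤ n := ht.trans htn
  have hn1 : (1:ℝ) ≤ n := by exact_mod_cast hn
  have ht1 : (1:ℝ) ≤ t := by exact_mod_cast ht
  have htn1 : (t:ℝ) ≤ n := by exact_mod_cast htn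
  have hln : 0 ≤ Real.log n := Real.log_nonneg hn1
  have hl1 : 1 ≤ l := by linarith
  have hl0 : 0 ≤ l := by linarith
  set u : ℝ := l ^ (1 / 4 : ℝ) with hu
  have hu1 : 1 ≤ u := Real.one_le_rpow hl1 (by norm_num)
  have hu4 : u ^ 4 = l := by
    rw [hu, ← Real.rpow_natCast, ← Real.rpow_mul hl0]
    norm_num
  have hu3 : l ^ (3 / 4 : ℝ) = u ^ 3 := by
    rw [hu, ← Real.rpow_natCast, ← Real.rpow_mul hl0]
    norm_num
  rw [hu3] at hΛ
  have hΛ0 : 0 < Λ := lt_of_lt_of_le (by positivity) hΛ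
  set k := ⌈u ^ 2⌉₊ with hk
  have hk1 : u ^ 2 ≤ k := Nat.le_ceil _
  have hk2 : (k : ℝ) < u ^ 2 + 1 := Nat.ceil_lt_add_one (by positivity)
  have hk3 : 1 ≤ k := Nat.one_le_ceil_iff.mpr (by positivity)
  have hk3' : (1:ℝ) ≤ k := by exact_mod_cast hk3
  have hu2 : 1 ≤ u ^ 2 := one_le_pow₀ hu1
  have hk4 : (k : ℝ) ^ 2 ≤ 4 * l := by
    have h1 : (k : ℝ) ≤ 2 * u ^ 2 := by linarith
    have h2 := pow_le_pow_left₀ (by positivity) h1 2
    calc (k : ℝ) ^ 2 ≤ (2 * u ^ 2) ^ 2 := h2
      _ = 4 * l := by rw [← hu4]; ring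
  have hk0 : (0:ℝ) < k := by linarith
  have hlogk : Real.log k ≤ l := by
    have h1 : Real.log k ≤ k - 1 := Real.log_le_sub_one_of_pos hk0
    have h2 : u ^ 2 ≤ l := by
      rw [← hu4]
      exact pow_le_pow_right₀ hu1 (by norm_num)
    linarith
  have hlognk : 1 + Real.log (n * k) ≤ 2 * l := by
    rw [Real.log_mul (by linarith) (by linarith)]
    linarith
  -- `x = √(n k / t)`
  set x := Real.sqrt (n * k / t) with hx
  have hx2 : x ^ 2 = n * k / t := Real.sq_sqrt (by positivity)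
  have hxt : t * x ^ 2 = n * k := by rw [hx2]; field_simp
  have hnkt : (1:ℝ) ≤ n * k / t := by
    rw [le_div_iff₀ (by linarith)]
    nlinarith
  have hx1 : 1 ≤ x := Real.one_le_sqrt.mpr hnkt
  set w := ⌊x⌋₊ with hw
  have hw1 : (w : ℝ) ≤ x := Nat.floor_le (by linarith)
  have hw2 : x < w + 1 := Nat.lt_floor_add_one x
  have hw3 : 1 ≤ w := by
    rw [hw, Nat.one_le_floor_iff]
    exact hx1
  have hw3' : (1:ℝ) ≤ w := by exact_mod_cast hw3
  have hwx : x / 2 ≤ w := by linarith
  have hw4 : t * w ≤ n * k := by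
    have : (t : ℝ) * w ≤ n * k := by
      rw [← hxt]
      apply mul_le_mul_of_nonneg_left _ (by linarith)
      nlinarith
    exact_mod_cast this
  have hw5 : t * (w : ℝ) ^ 2 ≤ n * k := by
    rw [← hxt]
    exact mul_le_mul_of_nonneg_left (pow_le_pow_left₀ (by linarith) hw1 2) (by linarith)
  have h1 := H k w hk3 hw3 hw4
  have hnk0 : 0 < (n : ℝ) * k := by positivity
  have h2 : (k : ℝ) * (w * Λ) ≤ k * (40 * (n * l * (1 + mm))) := by
    have e2 : (t * (w : ℝ) ^ 2 + n * k) * (1 + Real.log (n * k)) ≤ 2 * (n * k) * (2 * l) := by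
      apply mul_le_mul (by linarith) hlognk _ (by positivity)
      have : 0 ≤ Real.log (n * k) := Real.log_nonneg (by nlinarith)
      linarith
    have e3 : (n : ℝ) * k * (k ^ 2 * mm) ≤ n * k * (4 * l * mm) :=
      mul_le_mul_of_nonneg_left (mul_le_mul_of_nonneg_right hk4 hmm) hnk0.le
    nlinarith
  have h3 : w * Λ ≤ 40 * (n * l * (1 + mm)) := le_of_mul_le_mul_left h2 hk0
  -- the lower bound
  have h4 : 80 * (n * l) ≤ w * Λ := by
    have h5 : x * Real.sqrt (n * t) = n * Real.sqrt k := by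
      rw [hx, ← Real.sqrt_mul (by positivity)]
      have : (n : ℝ) * k / t * (n * t) = n ^ 2 * k := by field_simp
      rw [this, Real.sqrt_mul (by positivity), Real.sqrt_sq (by linarith)]
    have h6 : u ≤ Real.sqrt k := Real.le_sqrt_of_sq_le hk1
    calc 80 * (n * l) = 80 * (n * (u * u ^ 3)) := by rw [← hu4]; ring
      _ ≤ 80 * (n * (Real.sqrt k * u ^ 3)) := by
          apply mul_le_mul_of_nonneg_left _ (by norm_num)
          apply mul_le_mul_of_nonneg_left _ (by linarith)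
          exact mul_le_mul_of_nonneg_right h6 (by positivity)
      _ = x / 2 * (160 * (Real.sqrt (n * t) * u ^ 3)) := by
          have : 80 * (n * (Real.sqrt k * u ^ 3)) = 80 * ((n * Real.sqrt k) * u ^ 3) := by ring
          rw [this, ← h5]
          ring
      _ ≤ w * Λ := mul_le_mul hwx hΛ (by positivity) (by linarith)
  have h5 : (n * l) * 2 ≤ (n * l) * (1 + mm) := by linarith
  have h6 : (2:ℝ) ≤ 1 + mm := le_of_mul_le_mul_left h5 (by positivity)
  linarith

end Pool.Agent.V1156.RC
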