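import Mathlib
import Pool.Agent.V1156.RC.Fld
import Pool.Agent.V1156.RC.Opt

/-!
# Products of cyclotomic polynomials
-/

set_option autoImplicit false

open Finset Polynomial Module Filter Topology

namespace Pool.Agent.V1156.RC

theorem card_divisors_le (k : ℕ) : k.divisors.card ≤ 2 * Nat.sqrt k := by
  classical
  rcases Nat.eq_zero_or_pos k with rfl | hk
  · simp
  have h1 : k.divisors ⊆ (Finset.Icc 1 (Nat.sqrt k)) ∪
      (Finset.Icc 1 (Nat.sqrt k)).image (fun d => k / d) := by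
    intro d hd
    have hdk := Nat.dvd_of_mem_divisors hd
    have hd0 := Nat.pos_of_mem_divisors hd
    rw [Finset.mem_union]
    by_cases h : d ≤ Nat.sqrt k
    · left; rw [Finset.mem_Icc]; exact ⟨hd0, h⟩
    · right
      rw [Finset.mem_image]
      refine ⟨k / d, ?_, Nat.div_div_self hdk hk.ne'⟩
      rw [Finset.mem_Icc]
      constructor
      · exact Nat.div_pos (Nat.le_of_dvd hk hdk) hd0
      · by_contra hcon
        push Not at h hcon
        have h2 : d * (k / d) = k := Nat.mul_div_cancel' hdk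
        have h3 := Nat.lt_succ_sqrt k
        have h4 : (Nat.sqrt k + 1) * (Nat.sqrt k + 1) ≤ d * (k / d) := Nat.mul_le_mul h hcon
        rw [h2] at h4
        exact absurd h3 (not_lt.mpr h4)
  calc k.divisors.card ≤ ((Finset.Icc 1 (Nat.sqrt k)) ∪
      (Finset.Icc 1 (Nat.sqrt k)).image (fun d => k / d)).card := Finset.card_le_card h1
    _ ≤ (Finset.Icc 1 (Nat.sqrt k)).card +
      ((Finset.Icc 1 (Nat.sqrt k)).image (fun d => k / d)).card := Finset.card_union_le _ _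
    _ ≤ Nat.sqrt k + Nat.sqrt k := by
        apply add_le_add
        · simp
        · exact Finset.card_image_le.trans (by simp)
    _ = 2 * Nat.sqrt k := by ring

theorem sqrt_le_totient (k : ℕ) (hk : 1 ≤ k) : Real.sqrt k ≤ 2 * Nat.totient k := by
  have h1 : k ≤ k.divisors.card * Nat.totient k := by
    calc k = ∑ e ∈ k.divisors, Nat.totient e := (Nat.sum_totient k).symm
      _ ≤ ∑ _e ∈ k.divisors, Nat.totient k := by
          apply Finset.sum_le_sum
          intro e he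
          exact Nat.le_of_dvd (Nat.totient_pos.mpr (by omega))
            (Nat.totient_dvd_of_dvd (Nat.dvd_of_mem_divisors he))
      _ = k.divisors.card * Nat.totient k := by rw [Finset.sum_const, smul_eq_mul]
  have h2 := card_divisors_le k
  have h3 : k ≤ 2 * Nat.sqrt k * Nat.totient k := h1.trans (Nat.mul_le_mul_right _ h2)
  have h4 : (k : ℝ) ≤ 2 * (Nat.sqrt k : ℝ) * Nat.totient k := by exact_mod_cast h3
  have h5 : (Nat.sqrt k : ℝ) ≤ Real.sqrt k := Real.nat_sqrt_le_real_sqrt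
  have h6 : 0 < Real.sqrt k := Real.sqrt_pos.mpr (by exact_mod_cast (by omega : 0 < k))
  have h7 : Real.sqrt k * Real.sqrt k = k := Real.mul_self_sqrt (by positivity)
  have h8 : (0 : ℝ) ≤ Nat.totient k := by positivity
  have h9 : Real.sqrt k * Real.sqrt k ≤ Real.sqrt k * (2 * Nat.totient k) := by
    rw [h7]
    refine h4.trans ?_
    nlinarith
  exact le_of_mul_le_mul_left h9 h6


lemma totient_sq (k : ℕ) (hk : 1 ≤ k) : (k : ℝ) ≤ 4 * (Nat.totient k : ℝ) ^ 2 := by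
  have h1 := sqrt_le_totient k hk
  have h2 : Real.sqrt k ^ 2 = k := Real.sq_sqrt (by positivity)
  have h3 := pow_le_pow_left₀ (Real.sqrt_nonneg _) h1 2
  rw [h2] at h3
  nlinarith

/-- a root of unity `ζ ≠ 1` of order dividing `M` has distance at least `1 / M` from `1` -/
lemma root_dist {M : ℕ} (hM : 0 < M) {ζ : ℂ} (h : ζ ^ M = 1) (h1 : ζ ≠ 1) :
    1 / (M : ℝ) ≤ ‖1 - ζ‖ := by
  by_contra hcon
  push Not at hcon
  have hM' : (0:ℝ) < M := by exact_mod_cast hM
  have hn : ‖ζ‖ = 1 := by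
    have h2 : ‖ζ‖ ^ M = 1 ^ M := by rw [← norm_pow, h, norm_one, one_pow]
    exact (pow_left_inj₀ (norm_nonneg _) zero_le_one hM.ne').mp h2
  have hj : ∀ j : ℕ, ‖1 - ζ ^ j‖ ≤ j * ‖1 - ζ‖ := by
    intro j
    induction j with
    | zero => simp
    | succ j ih =>
      have h2 : 1 - ζ ^ (j + 1) = (1 - ζ ^ j) + ζ ^ j * (1 - ζ) := by ring
      rw [h2]
      refine (norm_add_le _ _).trans ?_
      rw [norm_mul, norm_pow, hn, one_pow, one_mul]
      push_cast
      linarith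
  have hre : ∀ j ∈ Finset.range M, 0 < (ζ ^ j).re := by
    intro j hjM
    have h2 := hj j
    have h3 : (j : ℝ) * ‖1 - ζ‖ < 1 := by
      have h4 : (j : ℝ) ≤ M := by exact_mod_cast (Finset.mem_range.mp hjM).le
      calc (j : ℝ) * ‖1 - ζ‖ ≤ M * ‖1 - ζ‖ := mul_le_mul_of_nonneg_right h4 (norm_nonneg _)
        _ < M * (1 / M) := mul_lt_mul_of_pos_left hcon hM'
        _ = 1 := by field_simp
    have h4 := Complex.re_le_norm (1 - ζ ^ j)
    rw [Complex.sub_re, Complex.one_re] at h4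
    linarith
  have hsum : ∑ j ∈ Finset.range M, ζ ^ j = 0 := by
    have h2 := mul_geom_sum ζ M
    rw [h, sub_self] at h2
    rcases mul_eq_zero.mp h2 with h3 | h3
    · exact absurd (sub_eq_zero.mp h3) h1
    · exact h3
  have h2 := congrArg Complex.re hsum
  rw [Complex.re_sum, Complex.zero_re] at h2
  have h3 : 0 < ∑ j ∈ Finset.range M, (ζ ^ j).re :=
    Finset.sum_pos hre ⟨0, Finset.mem_range.mpr hM⟩
  linarith

/-- the product of the cyclotomic polynomials with orders in `𝒟` -/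
noncomputable def cycProd (𝒟 : Finset ℕ) : ℤ[X] := ∏ m ∈ 𝒟, cyclotomic m ℤ

open Classical in
/-- the zeros -/
noncomputable def cycSet (𝒟 : Finset ℕ) : Finset ℂ := 𝒟.biUnion fun m => primitiveRoots m ℂ

lemma mem_cycSet {𝒟 : Finset ℕ} (hpos : ∀ m ∈ 𝒟, 0 < m) {s : ℂ} :
    s ∈ cycSet 𝒟 ↔ ∃ m ∈ 𝒟, IsPrimitiveRoot s m := by
  classical
  unfold cycSet
  rw [Finset.mem_biUnion]
  constructor
  · rintro ⟨m, hm, hs⟩
    exact ⟨m, hm, (mem_primitiveRoots (hpos m hm)).mp hs⟩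
  · rintro ⟨m, hm, hs⟩
    exact ⟨m, hm, (mem_primitiveRoots (hpos m hm)).mpr hs⟩

lemma cycSet_disj {𝒟 : Finset ℕ} :
    Set.PairwiseDisjoint (↑𝒟 : Set ℕ) (fun m => primitiveRoots m ℂ) := by
  intro m _ l _ hml
  exact IsPrimitiveRoot.disjoint hml

lemma cycProd_map {𝒟 : Finset ℕ} (hpos : ∀ m ∈ 𝒟, 0 < m) :
    (cycProd 𝒟).map (Int.castRingHom ℂ) = ∏ s ∈ cycSet 𝒟, (X - Polynomial.C s) := by
  classical
  unfold cycProd cycSet
  rw [Polynomial.map_prod, Finset.prod_biUnion cycSet_disj]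
  refine Finset.prod_congr rfl fun m hm => ?_
  rw [map_cyclotomic_int]
  exact cyclotomic_eq_prod_X_sub_primitiveRoots (Complex.isPrimitiveRoot_exp m (hpos m hm).ne')

lemma cycProd_monic (𝒟 : Finset ℕ) : (cycProd 𝒟).Monic :=
  monic_prod_of_monic _ _ fun m _ => cyclotomic.monic m ℤ

lemma cycSet_card {𝒟 : Finset ℕ} : (cycSet 𝒟).card = ∑ m ∈ 𝒟, Nat.totient m := by
  classical
  unfold cycSet
  rw [Finset.card_biUnion cycSet_disj]
  exact Finset.sum_congr rfl fun m _ => Complex.card_primitiveRoots m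

/-- the distances -/
lemma cycSet_sep {𝒟 : Finset ℕ} (hpos : ∀ m ∈ 𝒟, 0 < m) {s s' : ℂ} (hs : s ∈ cycSet 𝒟)
    (hs' : s' ∈ cycSet 𝒟) (hne : s ≠ s') :
    1 / (16 * ((∑ m ∈ 𝒟, Nat.totient m : ℕ) : ℝ) ^ 4) ≤ ‖s - s'‖ := by
  obtain ⟨m, hm, h1⟩ := (mem_cycSet hpos).mp hs
  obtain ⟨m', hm', h2⟩ := (mem_cycSet hpos).mp hs'
  set t : ℝ := ((∑ m ∈ 𝒟, Nat.totient m : ℕ) : ℝ) with ht
  have hmt : ∀ m ∈ 𝒟, (m : ℝ) ≤ 4 * t ^ 2 := by
    intro m hm
    refine (totient_sq m (hpos m hm)).trans ?_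
    have h3 : (Nat.totient m : ℝ) ≤ t := by
      rw [ht]
      exact_mod_cast Finset.single_le_sum (f := fun m => Nat.totient m) (fun _ _ => Nat.zero_le _) hm
    have := pow_le_pow_left₀ (Nat.cast_nonneg _) h3 2
    linarith
  have hm0 : (0:ℝ) < m := by exact_mod_cast hpos m hm
  have hm0' : (0:ℝ) < m' := by exact_mod_cast hpos m' hm'
  have hsn : ‖s'‖ = 1 := h2.norm'_eq_one (hpos m' hm').ne'
  have hs0 : s' ≠ 0 := by
    rw [← norm_pos_iff, hsn]
    exact one_pos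
  have hζ : (s / s') ^ (m * m') = 1 := by
    rw [div_pow, pow_mul, h1.pow_eq_one, one_pow, mul_comm m m', pow_mul, h2.pow_eq_one, one_pow,
      div_one]
  have hζ1 : s / s' ≠ 1 := by
    intro h
    rw [div_eq_one_iff_eq hs0] at h
    exact hne h
  have h3 := root_dist (Nat.mul_pos (hpos m hm) (hpos m' hm')) hζ hζ1
  have h4 : ‖s - s'‖ = ‖1 - s / s'‖ := by
    have : s - s' = -(s' * (1 - s / s')) := by field_simp; ring
    rw [this, norm_neg, norm_mul, hsn, one_mul]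
  rw [h4]
  refine le_trans ?_ h3
  apply one_div_le_one_div_of_le
  · push_cast
    positivity
  · push_cast
    calc (m : ℝ) * m' ≤ (4 * t ^ 2) * (4 * t ^ 2) :=
          mul_le_mul (hmt m hm) (hmt m' hm') hm0'.le (by positivity)
      _ = 16 * t ^ 4 := by ring

/-- divisor-closed sets of orders -/
lemma cycProd_dvd {𝒟 : Finset ℕ} (hpos : ∀ m ∈ 𝒟, 0 < m) (hcl : ∀ m ∈ 𝒟, ∀ d, d ∣ m → d ∈ 𝒟)
    (j : ℕ) (hj : 1 ≤ j) : cycProd 𝒟 ∣ (cycProd 𝒟).comp (X ^ j) := by
  classical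
  rw [← Polynomial.map_dvd_map (Int.castRingHom ℂ) (Int.cast_injective) (cycProd_monic 𝒟),
    cycProd_map hpos]
  apply Finset.prod_dvd_of_coprime
  · intro a _ b _ hab
    exact pairwise_coprime_X_sub_C Function.injective_id hab
  · intro s hs
    rw [dvd_iff_isRoot, IsRoot.def, Polynomial.map_comp, eval_comp]
    have h1 : (Polynomial.map (Int.castRingHom ℂ) (X ^ j : ℤ[X])).eval s = s ^ j := by simp
    rw [h1]
    obtain ⟨m, hm, hs1⟩ := (mem_cycSet hpos).mp hs
    have h2 : s ^ j ∈ cycSet 𝒟 := by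
      rw [mem_cycSet hpos]
      refine ⟨orderOf (s ^ j), hcl m hm _ ?_, IsPrimitiveRoot.orderOf _⟩
      rw [hs1.eq_orderOf]
      exact orderOf_pow_dvd j
    rw [cycProd_map hpos, eval_prod]
    exact Finset.prod_eq_zero h2 (by simp)

end Pool.Agent.V1156.RC
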