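import Mathlib

/-!
# Choice of the parameters, resultants: the bound with the fourth power
-/

set_option autoImplicit false

namespace Pool.Agent.V1156.RC

lemma opt_c3 {Λ mm l : ℝ} {n t : ℕ} (ht : 1 ≤ t) (htn : t ≤ n) (hl : l = 1 + Real.log n)
    (hΛ : 200 * Real.sqrt (n * t) ≤ Λ) (hmm : 0 ≤ mm)
    (H : ∀ k w : ℕ, 1 ≤ k → 1 ≤ w → t * w ≤ n * k → (w : ℝ) * (k * Λ) ≤
      10 * ((t * (w : ℝ) ^ 2 + n * k) * (1 + Real.log (n * k)) + n * k * (k ^ 2 * mm))) :
    min l ((Λ / (200 * Real.sqrt (n * t))) ^ 4 / l ^ 3) ≤ mm := by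
  have hn : 1 ≤ n := ht.trans htn
  have hn1 : (1:ℝ) ≤ n := by exact_mod_cast hn
  have ht1 : (1:ℝ) ≤ t := by exact_mod_cast ht
  have htn1 : (t:ℝ) ≤ n := by exact_mod_cast htn
  have hln : 0 ≤ Real.log n := Real.log_nonneg hn1
  have hl1 : 1 ≤ l := by linarith
  have hl0 : 0 < l := by linarith
  set s := Real.sqrt (n * t) with hs
  have hs2 : s ^ 2 = n * t := Real.sq_sqrt (by positivity)
  have hs0 : 0 < s := Real.sqrt_pos.mpr (by positivity)
  have hΛ0 : 0 < Λ := lt_of_lt_of_le (by positivity) hΛ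
  set v : ℝ := 200 * l * s / Λ with hv
  have hv0 : 0 < v := by positivity
  have hvΛ : v * Λ = 200 * l * s := by rw [hv]; field_simp
  have hvl : v ≤ l := by
    rw [hv, div_le_iff₀ hΛ0]
    nlinarith
  have htarget : (Λ / (200 * s)) ^ 4 / l ^ 3 = l / v ^ 4 := by
    have h1 : Λ / (200 * s) = l / v := by
      rw [div_eq_div_iff (by positivity) hv0.ne']
      linarith
    rw [h1, div_pow, div_div, div_eq_div_iff (by positivity) (by positivity)]
    ring
  set k := ⌈v ^ 2⌉₊ with hk
  have hk1 : v ^ 2 ≤ k := Nat.le_ceil _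
  have hk2 : (k : ℝ) < v ^ 2 + 1 := Nat.ceil_lt_add_one (by positivity)
  have hk3 : 1 ≤ k := Nat.one_le_ceil_iff.mpr (by positivity)
  have hk3' : (1:ℝ) ≤ k := by exact_mod_cast hk3
  have hk0 : (0:ℝ) < k := by linarith
  have hlogk : Real.log k ≤ l + 0.08 := by
    have h1 : (k : ℝ) ≤ 2 * l ^ 2 := by
      have : v ^ 2 ≤ l ^ 2 := pow_le_pow_left₀ hv0.le hvl 2
      nlinarith
    have h2 : Real.log k ≤ Real.log (2 * l ^ 2) := Real.log_le_log hk0 h1
    rw [Real.log_mul (by norm_num) (by positivity), Real.log_pow] at h2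
    have h3 : Real.log l ≤ l / 2 - 1 + Real.log 2 := by
      have h4 : Real.log (l / 2) ≤ l / 2 - 1 := Real.log_le_sub_one_of_pos (by positivity)
      rw [Real.log_div (by positivity) (by norm_num)] at h4
      linarith
    have h5 := Real.log_two_lt_d9
    push_cast at h2
    linarith
  have hlognk : 1 + Real.log (n * k) ≤ 2.08 * l := by
    rw [Real.log_mul (by linarith) (by linarith)]
    nlinarith
  -- `x = √(n k / t)`
  set x := Real.sqrt (n * k / t) with hx
  have hx2 : x ^ 2 = n * k / t := Real.sq_sqrt (by positivity)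
  have hxt : t * x ^ 2 = n * k := by rw [hx2]; field_simp
  have hnkt : (1:ℝ) ≤ n * k / t := by
    rw [le_div_iff₀ (by linarith)]
    nlinarith
  have hx1 : 1 ≤ x := Real.one_le_sqrt.mpr hnkt
  set w := ⌊x⌋₊ with hw
  have hw1 : (w : ℝ) ≤ x := Nat.floor_le (by linarith)
  have hw2 : x < w + 1 := Nat.lt_floor_add_one x
  have hw3 : 1 ≤ w := by
    rw [hw, Nat.one_le_floor_iff]
    exact hx1
  have hw3' : (1:ℝ) ≤ w := by exact_mod_cast hw3
  have hwx : x / 2 ≤ w := by linarith
  have hw4 : t * w ≤ n * k := by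
    have : (t : ℝ) * w ≤ n * k := by
      rw [← hxt]
      apply mul_le_mul_of_nonneg_left _ (by linarith)
      nlinarith
    exact_mod_cast this
  have hw5 : t * (w : ℝ) ^ 2 ≤ n * k := by
    rw [← hxt]
    exact mul_le_mul_of_nonneg_left (pow_le_pow_left₀ (by linarith) hw1 2) (by linarith)
  have h1 := H k w hk3 hw3 hw4
  have hnk0 : 0 < (n : ℝ) * k := by positivity
  have h2 : (n : ℝ) * k * (w * Λ / n) ≤ n * k * (10 * (2 * (2.08 * l) + k ^ 2 * mm)) := by
    have e1 : (n : ℝ) * k * (w * Λ / n) = w * (k * Λ) := by field_simp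
    rw [e1]
    have e2 : (t * (w : ℝ) ^ 2 + n * k) * (1 + Real.log (n * k)) ≤ 2 * (n * k) * (2.08 * l) := by
      apply mul_le_mul (by linarith) hlognk _ (by positivity)
      have : 0 ≤ Real.log (n * k) := Real.log_nonneg (by nlinarith)
      linarith
    nlinarith
  have h3 : w * Λ / n ≤ 10 * (2 * (2.08 * l) + k ^ 2 * mm) := le_of_mul_le_mul_left h2 hnk0
  have h4 : 100 * l ≤ w * Λ / n := by
    rw [le_div_iff₀ (by linarith)]
    have h5 : x * s = n * Real.sqrt k := by
      rw [hx, hs, ← Real.sqrt_mul (by positivity)]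
      have : (n : ℝ) * k / t * (n * t) = n ^ 2 * k := by field_simp
      rw [this, Real.sqrt_mul (by positivity), Real.sqrt_sq (by linarith)]
    have h6 : v ≤ Real.sqrt k := Real.le_sqrt_of_sq_le hk1
    have h7 : 200 * l * n ≤ x * Λ := by
      have h8 : 200 * l * n * v ≤ x * Λ * v := by
        calc 200 * l * n * v ≤ 200 * l * n * Real.sqrt k :=
              mul_le_mul_of_nonneg_left h6 (by positivity)
          _ = 200 * l * (n * Real.sqrt k) := by ring
          _ = 200 * l * (x * s) := by rw [h5]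
          _ = x * (200 * l * s) := by ring
          _ = x * (v * Λ) := by rw [hvΛ]
          _ = x * Λ * v := by ring
      exact le_of_mul_le_mul_right h8 hv0
    have h8 : x / 2 * Λ ≤ w * Λ := mul_le_mul_of_nonneg_right hwx hΛ0.le
    linarith
  have h5 : 5.84 * l ≤ k ^ 2 * mm := by linarith
  rw [htarget]
  rcases le_or_gt (v ^ 2) 1 with h | h
  · have hk' : k = 1 := by
      apply le_antisymm _ hk3
      rw [hk, Nat.ceil_le]
      exact_mod_cast h
    rw [hk'] at h5
    refine (min_le_left _ _).trans ?_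
    push_cast at h5
    linarith
  · refine (min_le_right _ _).trans ?_
    rw [div_le_iff₀ (by positivity)]
    have h6 : (k : ℝ) ^ 2 ≤ 4 * v ^ 4 := by
      have h7 : (k : ℝ) ≤ 2 * v ^ 2 := by linarith
      have h8 := pow_le_pow_left₀ hk0.le h7 2
      calc (k : ℝ) ^ 2 ≤ (2 * v ^ 2) ^ 2 := h8
        _ = 4 * v ^ 4 := by ring
    have h7 := mul_le_mul_of_nonneg_right h6 hmm
    nlinarith

end Pool.Agent.V1156.RC
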