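import Mathlib
import Pool.Agent.V1156.RC.Cyc
import Pool.Agent.V1156.RC.Opt2

/-!
# Large resultants with products of cyclotomic polynomials: the bounds
-/

set_option autoImplicit false

open Polynomial

namespace Pool.Agent.V1156.RC

theorem main_cyc (f : ℤ[X]) (hf : Irreducible f) (hfm : f.Monic) (𝒟 : Finset ℕ) (hne : 𝒟.Nonempty)
    (hpos : ∀ m ∈ 𝒟, 0 < m) (n t : ℕ) (hn : n = f.natDegree) (ht : t = ∑ m ∈ 𝒟, Nat.totient m)
    (htn : t ≤ n) :
    (80 * (Real.sqrt (n * t) * (1 + Real.log n)) ≤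
        Real.log (resAbs f (∏ m ∈ 𝒟, cyclotomic m ℤ)) →
      min (Real.log (resAbs f (∏ m ∈ 𝒟, cyclotomic m ℤ)))
        (Real.log (resAbs f (∏ m ∈ 𝒟, cyclotomic m ℤ)) ^ 2 / (n * (1 + Real.log n))) /
          (1600 * t) ≤ Real.log (f.map (Int.castRingHom ℂ)).mahlerMeasure) ∧
    (1 < (f.map (Int.castRingHom ℂ)).mahlerMeasure → (∀ z z' : ℂ, aeval z f = 0 → aeval z' f = 0 → z ≠ z' → ∀ j : ℕ, 1 ≤ j → z ^ j ≠ z' ^ j) →
      (∀ m ∈ 𝒟, ∀ d, d ∣ m → d ∈ 𝒟) →
      200 * Real.sqrt (n * t) ≤ Real.log (resAbs f (∏ m ∈ 𝒟, cyclotomic m ℤ)) →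
      min (1 + Real.log n) ((Real.log (resAbs f (∏ m ∈ 𝒟, cyclotomic m ℤ)) /
        (200 * Real.sqrt (n * t))) ^ 4 / (1 + Real.log n) ^ 3) ≤
          Real.log (f.map (Int.castRingHom ℂ)).mahlerMeasure) := by
  classical
  set b : ℤ[X] := ∏ m ∈ 𝒟, cyclotomic m ℤ with hb
  have hbc : b = cycProd 𝒟 := rfl
  set S := cycSet 𝒟 with hS
  have hcard : S.card = t := by rw [ht]; exact cycSet_card
  have ht1 : 1 ≤ t := by
    obtain ⟨m, hm⟩ := hne
    rw [ht]
    have h1 := Finset.single_le_sum (f := fun m => Nat.totient m) (fun _ _ => Nat.zero_le _) hm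
    have h2 := Nat.totient_pos.mpr (hpos m hm)
    exact le_trans h2 h1
  have hSne : S.Nonempty := Finset.card_pos.mp (by omega)
  have hbS := cycProd_map hpos
  have hroots : ∀ s ∈ S, ∃ N : ℕ, 0 < N ∧ s ^ N = 1 := by
    intro s hs
    obtain ⟨m, hm, h1⟩ := (mem_cycSet hpos).mp hs
    exact ⟨m, hpos m hm, h1.pow_eq_one⟩
  have hS1 : ∀ s ∈ S, ‖s‖ = 1 := by
    intro s hs
    obtain ⟨m, hm, h1⟩ := (mem_cycSet hpos).mp hs
    exact h1.norm'_eq_one (hpos m hm).ne'
  have ht1' : (1:ℝ) ≤ t := by exact_mod_cast ht1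
  have hn1 : (1:ℝ) ≤ n := by exact_mod_cast (ht1.trans htn)
  have htn' : (t:ℝ) ≤ n := by exact_mod_cast htn
  set η : ℝ := 1 / (16 * (t : ℝ) ^ 4) with hη
  have ht4 : (1:ℝ) ≤ (t : ℝ) ^ 4 := one_le_pow₀ ht1'
  have hη0 : 0 < η := by positivity
  have hη1 : η ≤ 1 := by
    rw [hη, div_le_one (by positivity)]
    linarith
  have hsep : ∀ s ∈ S, ∀ s' ∈ S, s ≠ s' → η ≤ ‖s - s'‖ := by
    intro s hs s' hs' h
    have := cycSet_sep hpos hs hs' h
    rw [← ht] at this
    exact this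
  have hηl : Real.log (1 / η) ≤ 10 * (1 + Real.log f.natDegree) := by
    rw [← hn, hη, one_div_one_div, Real.log_mul (by norm_num) (by positivity), Real.log_pow]
    have h1 : Real.log 16 ≤ 3 := by
      have : (16:ℝ) = 2 ^ 4 := by norm_num
      rw [this, Real.log_pow]
      have := Real.log_two_lt_d9
      push_cast
      linarith
    have h2 : Real.log t ≤ Real.log n := Real.log_le_log (by linarith) htn'
    have h3 : 0 ≤ Real.log n := Real.log_nonneg hn1
    push_cast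
    linarith
  have hln : 0 ≤ Real.log n := Real.log_nonneg hn1
  -- the values do not vanish
  have hval : 0 < Real.log (resAbs f b) → ∀ z : ℂ, aeval z f = 0 → aeval z b ≠ 0 := by
    intro hpos' z hz h0
    have h1 : resAbs f b = 0 := by
      unfold resAbs
      apply Multiset.prod_eq_zero
      rw [Multiset.mem_map]
      refine ⟨z, ?_, by rw [h0, norm_zero]⟩
      rw [mem_roots ((hfm.map _).ne_zero), IsRoot.def, eval_map]
      exact hz
    rw [h1, Real.log_zero] at hpos'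
    exact lt_irrefl _ hpos'
  refine ⟨fun h => ?_, fun hM hnd hcl h => ?_⟩
  · have hpos' : 0 < Real.log (resAbs f b) := lt_of_lt_of_le (by positivity) h
    refine opt_c1 ht1 htn rfl h fun w hw1 hw2 => ?_
    have h1 := poly_cyc b S hSne hbS hS1 hη0 hη1 hsep f hf hfm hηl 1 w le_rfl
      (Or.inl rfl) hroots (hval hpos') hw1 (by rw [hcard, ← hn, mul_one]; exact hw2)
    rw [hcard, ← hn] at h1
    simp only [Nat.cast_one, mul_one, one_mul, one_pow] at h1
    exact h1
  · have hpos' : 0 < Real.log (resAbs f b) := lt_of_lt_of_le (by positivity) h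
    have hmm : 0 < Real.log (f.map (Int.castRingHom ℂ)).mahlerMeasure := Real.log_pos hM
    exact opt_c3 ht1 htn rfl h hmm.le fun k w hk hw1 hw2 => by
      have h1 := poly_cyc b S hSne hbS hS1 hη0 hη1 hsep f hf hfm hηl k w hk
        (Or.inr ⟨hmm, hnd, fun j hj1 _ => cycProd_dvd hpos hcl j hj1⟩) hroots
        (hval hpos') hw1 (by rw [hcard, ← hn]; exact hw2)
      rw [hcard, ← hn] at h1
      exact h1


end Pool.Agent.V1156.RC
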