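import Mathlib

/-!
# No quotient of two distinct conjugates of a Perron number is a root of unity
-/

set_option autoImplicit false

open Polynomial

namespace Pool.Agent.V1156.RC

theorem perron_nondeg {β : ℝ} (hint : IsIntegral ℤ β)
    (hβ : ∀ z : ℂ, aeval z (minpoly ℤ β) = 0 → z ≠ (β : ℂ) → ‖z‖ < β) (z z' : ℂ)
    (hz : aeval z (minpoly ℤ β) = 0) (hz' : aeval z' (minpoly ℤ β) = 0) (hne : z ≠ z') (j : ℕ)
    (hj : 1 ≤ j) : z ^ j ≠ z' ^ j := by
  intro h
  have hinj : Function.Injective (algebraMap ℝ ℂ) := (algebraMap ℝ ℂ).injective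
  have hmin : minpoly ℤ (β : ℂ) = minpoly ℤ β := minpoly.algebraMap_eq hinj β
  have hβ0 : aeval (β : ℂ) (minpoly ℤ β) = 0 := by
    rw [← hmin]
    exact minpoly.aeval ℤ (β : ℂ)
  have hirr : Irreducible ((minpoly ℤ β).map (algebraMap ℤ ℚ)) := by
    rw [← minpoly.isIntegrallyClosed_eq_field_fractions' ℚ hint]
    exact minpoly.irreducible hint.tower_top
  have hmonic : ((minpoly ℤ β).map (algebraMap ℤ ℚ)).Monic := (minpoly.monic hint).map _
  have hev : ∀ y : ℂ, aeval y (minpoly ℤ β) = 0 →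
      aeval y ((minpoly ℤ β).map (algebraMap ℤ ℚ)) = 0 := by
    intro y hy
    rw [aeval_map_algebraMap]
    exact hy
  have hint' : ∀ y : ℂ, aeval y (minpoly ℤ β) = 0 → IsIntegral ℚ y := fun y hy =>
    ⟨_, hmonic, hev y hy⟩
  have hmq : minpoly ℚ z = (minpoly ℤ β).map (algebraMap ℤ ℚ) :=
    (minpoly.eq_of_irreducible_of_monic hirr (hev z hz) hmonic).symm
  set E := IntermediateField.adjoin ℚ ({z, z'} : Set ℂ) with hE
  have hfin : FiniteDimensional ℚ E := IntermediateField.finiteDimensional_adjoin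
    fun y hy => by
      rcases hy with rfl | rfl
      · exact hint' _ hz
      · exact hint' _ hz'
  set x : E := ⟨z, IntermediateField.subset_adjoin _ _ (by simp)⟩ with hx
  set x' : E := ⟨z', IntermediateField.subset_adjoin _ _ (by simp)⟩ with hx'
  have hmx : minpoly ℚ x = minpoly ℚ z := by
    have := minpoly.algebraMap_eq (A := ℚ) (B := E) (B' := ℂ) (algebraMap E ℂ).injective x
    exact this.symm
  have hmx' : minpoly ℚ x' = (minpoly ℤ β).map (algebraMap ℤ ℚ) := by
    have := minpoly.algebraMap_eq (A := ℚ) (B := E) (B' := ℂ) (algebraMap E ℂ).injective x'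
    rw [← this]
    exact (minpoly.eq_of_irreducible_of_monic hirr (hev z' hz') hmonic).symm
  obtain ⟨φ, hφ⟩ := IntermediateField.exists_algHom_of_splits_of_aeval (F := ℚ) (E := E) (K := ℂ)
    (fun s => ⟨Algebra.IsIntegral.isIntegral s, IsAlgClosed.splits _⟩)
    (x := x) (y := (β : ℂ)) (by rw [hmx, hmq]; exact hev _ hβ0)
  have h1 : φ x' ≠ (β : ℂ) := by
    intro h2
    have h3 : x' = x := φ.toRingHom.injective (by
      change φ x' = φ x
      rw [h2, hφ])
    exact hne (congrArg Subtype.val h3).symm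
  have h2 : aeval (φ x') (minpoly ℤ β) = 0 := by
    have h3 : aeval (φ x') (minpoly ℚ x') = 0 := by
      rw [aeval_algHom_apply, minpoly.aeval, map_zero]
    rw [hmx', aeval_map_algebraMap] at h3
    exact h3
  have h3 : (φ x') ^ j = (β : ℂ) ^ j := by
    rw [← hφ, ← map_pow, ← map_pow]
    congr 1
    apply Subtype.ext
    change z' ^ j = z ^ j
    exact h.symm
  have h4 := hβ _ h2 h1
  have h5 : ‖φ x'‖ ^ j = β ^ j := by
    rw [← norm_pow, h3, norm_pow, Complex.norm_real, Real.norm_eq_abs, abs_of_pos]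
    exact lt_of_le_of_lt (norm_nonneg _) h4
  have h6 : ‖φ x'‖ ^ j < β ^ j := pow_lt_pow_left₀ h4 (norm_nonneg _) (by omega)
  linarith

end Pool.Agent.V1156.RC
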