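import Mathlib
import Pool.Agent.TH845.KN.B2
import Pool.Agent.Y820.LB.Closure

/-!
# Classes of polynomials whose Mahler measures tend to infinity with the degree
-/

set_option autoImplicit false

open Polynomial Filter

namespace Pool.Agent.V1156.RC

/-- the measures of the polynomials of a class -/
def measuresOf (cl : ℤ[X] → Prop) : Set ℝ :=
  {x : ℝ | ∃ f : ℤ[X], cl f ∧ x = (f.map (Int.castRingHom ℂ)).mahlerMeasure}

theorem finite_of_growth {cl : ℤ[X] → Prop} {g : ℕ → ℝ} (hg : Tendsto g atTop atTop)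
    (h : ∀ f, cl f → f ≠ 0 ∧ ((f.map (Int.castRingHom ℂ)).mahlerMeasure = 1 ∨
      g f.natDegree ≤ Real.log (f.map (Int.castRingHom ℂ)).mahlerMeasure)) (B : ℝ) :
    (measuresOf cl ∩ Set.Iic B).Finite := by
  set b : ℝ := Real.log (max B 1) + 1 with hb
  obtain ⟨N, hN⟩ := eventually_atTop.mp (hg.eventually_ge_atTop b)
  have hfin := Polynomial.finite_mahlerMeasure_le N (Real.toNNReal (max B 1))
  refine ((Set.finite_singleton (1:ℝ)).union
    (hfin.image fun f => (f.map (Int.castRingHom ℂ)).mahlerMeasure)).subset ?_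
  rintro x ⟨⟨f, hf, rfl⟩, hB⟩
  have hB' : (f.map (Int.castRingHom ℂ)).mahlerMeasure ≤ B := hB
  obtain ⟨hf0, h1⟩ := h f hf
  rcases h1 with h1 | h1
  · exact Or.inl h1
  right
  refine ⟨f, ⟨?_, ?_⟩, rfl⟩
  swap
  · rw [Real.coe_toNNReal _ (le_trans zero_le_one (le_max_right _ _))]
    exact hB'.trans (le_max_left _ _)
  by_contra hcon
  push Not at hcon
  have g1 := hN f.natDegree hcon.le
  have hM1 : 1 ≤ (f.map (Int.castRingHom ℂ)).mahlerMeasure :=
    Pool.Agent.H261R2.CM.F_one_le_m1 hf0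
  have g9 : Real.log (f.map (Int.castRingHom ℂ)).mahlerMeasure ≤ Real.log (max B 1) :=
    Real.log_le_log (by linarith) (hB'.trans (le_max_left _ _))
  linarith

theorem bc_of_growth {cl : ℤ[X] → Prop} {g : ℕ → ℝ} (hg : Tendsto g atTop atTop)
    (h : ∀ f, cl f → f ≠ 0 ∧ ((f.map (Int.castRingHom ℂ)).mahlerMeasure = 1 ∨
      g f.natDegree ≤ Real.log (f.map (Int.castRingHom ℂ)).mahlerMeasure)) :
    Pool.Agent.TH845.KN.BC (measuresOf cl) := by
  intro B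
  have h1 := finite_of_growth hg h B
  have h2 : ∀ x ∈ measuresOf cl ∩ Set.Iic B, ∃ K : ℝ, x ∈ Pool.Agent.H261R2.CM.LL K := by
    rintro x ⟨⟨f, hf, rfl⟩, -⟩
    exact ⟨_, Pool.Agent.W242.IM.m1_mem_LL f 1 (h f hf).1 one_ne_zero
      isRelPrime_one_right _ le_rfl⟩
  choose! K hK using h2
  obtain ⟨M, hM⟩ := (h1.image K).bddAbove
  refine ⟨M, ?_⟩
  rintro x ⟨hx, hxB⟩
  have hx2 : x ∈ measuresOf cl ∩ Set.Iic B := ⟨hx, (Set.mem_Iio.mp hxB).le⟩
  exact Pool.Agent.H261R2.CM.LL_mono (hM ⟨x, hx2, rfl⟩) (hK x hx2)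

/-- the monoid generated by a class with bounded companions and a class with growing measures -/
theorem monoid_of_growth {cl : ℤ[X] → Prop} {g : ℕ → ℝ} (hg : Tendsto g atTop atTop)
    (h : ∀ f, cl f → f ≠ 0 ∧ ((f.map (Int.castRingHom ℂ)).mahlerMeasure = 1 ∨
      g f.natDegree ≤ Real.log (f.map (Int.castRingHom ℂ)).mahlerMeasure)) (T : Set ℝ)
    (hT : Pool.Agent.TH845.KN.BC T) :
    Pool.Agent.TH845.KN.BC ((Submonoid.closure (T ∪ measuresOf cl) : Submonoid ℝ) : Set ℝ) ∧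
      closure ((Submonoid.closure (T ∪ measuresOf cl) : Submonoid ℝ) : Set ℝ) ⊆
        Pool.Agent.W242.IM.allM ∧
      (∃ δ : ℝ, 1 < δ ∧ ∀ x ∈ (Submonoid.closure (T ∪ measuresOf cl) : Submonoid ℝ),
        x = 1 ∨ δ ≤ x) ∧
      ∀ B : ℝ, ∃ m : ℕ, ∀ x ∈ derivedSet^[m]
        ((Submonoid.closure (T ∪ measuresOf cl) : Submonoid ℝ) : Set ℝ), B ≤ x := by
  have h1 : Pool.Agent.TH845.KN.BC
      ((Submonoid.closure (T ∪ measuresOf cl) : Submonoid ℝ) : Set ℝ) :=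
    Pool.Agent.TH845.KN.BC_monoid (Pool.Agent.TH845.KN.BC.union hT (bc_of_growth hg h))
  obtain ⟨h2, h3⟩ := Pool.Agent.W242.IM.closure_of_LL _ h1
  exact ⟨h1, h2, Pool.Agent.TH845.KN.gap_BC h1, h3⟩

end Pool.Agent.V1156.RC
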