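import Mathlib
import Pool.Agent.Y642.LZ.G

/-!
# Zeros in local fields: the lower bound for monic polynomials without the restriction `M < 2`
-/

set_option autoImplicit false

open Polynomial ValuativeRel

universe u

namespace Pool.Agent.V1156.RC

open Pool.Agent.Y642.LZ

theorem place_monic (f : ℤ[X]) (hf : Irreducible f) (hm : f.Monic) (hu : IsUnit (f.coeff 0))
    (hM : 1 < (f.map (Int.castRingHom ℂ)).mahlerMeasure)
    {ι : Type*} (s : Finset ι) (D : ι → Place.{u}) (hinj : Set.InjOn (fun i => (D i).p) s)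
    (Y : ∀ i, Finset (D i).K) (hY : ∀ i ∈ s, ∀ x ∈ Y i, aeval x f = 0)
    (hYt : ∀ i ∈ s, TorsionInd (Y i)) {S W : ℝ}
    (hS : S = placeSq f s D (fun i => (Y i).card)) (hW : W = placeLin s D (fun i => (Y i).card))
    (hSn : (f.natDegree : ℝ) ≤ S) :
    min (S / f.natDegree) (S ^ 2 / ((f.natDegree : ℝ) ^ 2 * (2 + Real.log f.natDegree) +
      f.natDegree * W)) ≤ 80 * Real.log (f.map (Int.castRingHom ℂ)).mahlerMeasure := by
  classical
  have hlc : |f.leadingCoeff| = 1 := by rw [hm.leadingCoeff]; rfl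
  have hdeg : 1 ≤ f.natDegree := by
    by_contra hcon
    have h0 : f.natDegree = 0 := by omega
    have h1 := hm.natDegree_eq_zero.mp h0
    exact hf.not_isUnit (h1 ▸ isUnit_one)
  -- move the sets to the valuation rings
  have hex : ∀ i, ∃ Z : Finset 𝒪[(D i).K], i ∈ s → Z.card = (Y i).card ∧
      ∀ x ∈ Z, (x : (D i).K) ∈ Y i := by
    intro i
    by_cases hi : i ∈ s
    · refine ⟨(Y i).attach.image fun x => ⟨x.1, mem_of_zero hlc (hY i hi x.1 x.2)⟩, fun _ => ⟨?_, ?_⟩⟩
      · rw [Finset.card_image_of_injective, Finset.card_attach]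
        intro x y hxy
        apply Subtype.ext
        have h5 := Subtype.ext_iff.mp hxy
        exact h5
      · intro x hx
        rw [Finset.mem_image] at hx
        obtain ⟨y, _, rfl⟩ := hx
        exact y.2
    · exact ⟨∅, fun h => absurd h hi⟩
  choose Z hZ using hex
  have hZ1 : ∀ i ∈ s, ∀ x : 𝒪[(D i).K], x ∈ Z i → aeval x f = 0 := by
    intro i hi x hx
    have h1 := hY i hi _ ((hZ i hi).2 x hx)
    rw [Pool.Agent.Y642.LZ.aeval_sub] at h1
    exact Subtype.val_injective h1
  have hZ2 : ∀ i ∈ s, ∀ x : 𝒪[(D i).K], x ∈ Z i → ∀ y : 𝒪[(D i).K], y ∈ Z i →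
      ∀ m : ℕ, 1 ≤ m → x ^ m = y ^ m → x = y := by
    intro i hi x hx y hy m hm hxy
    have h1 := hYt i hi _ ((hZ i hi).2 x hx) _ ((hZ i hi).2 y hy) m hm (by
      have := congrArg Subtype.val hxy
      simpa using this)
    exact Subtype.val_injective h1
  have hn1 : (1:ℝ) ≤ f.natDegree := by exact_mod_cast hdeg
  refine choice hn1 (by rw [hW]; exact placeLin_nonneg s D _) hSn fun k hk => ?_
  have h := irr_all f hf hm hu hM s (fun i => (D i).toLoc) hinj Z (fun i hi x hx => hZ1 i hi x hx)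
    (fun i hi x hx y hy m hm hxy => hZ2 i hi x hx y hy m hm hxy) k hk
  have e1 : (realZeros f : ℝ) ^ 2 / 96 + ∑ i ∈ s, ((Z i).card : ℝ) ^ 2 /
      (((D i).toLoc.q : ℝ) - 1) / (D i).toLoc.e * Real.log (D i).toLoc.p = S := by
    rw [hS, placeSq_eq]
    unfold sqSum
    congr 1
    refine Finset.sum_congr rfl fun i hi => ?_
    dsimp only
    rw [(hZ i hi).1, div_div, div_mul_eq_mul_div]
    congr 1
    ring
  have e2 : ∑ i ∈ s, ((Z i).card : ℝ) / (D i).toLoc.e * Real.log (D i).toLoc.p = W := by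
    rw [hW, placeLin_eq]
    unfold linSum
    refine Finset.sum_congr rfl fun i hi => ?_
    dsimp only
    rw [(hZ i hi).1]
    ring
  have h' : (k : ℝ) * S ≤ W + f.natDegree * (2 + Real.log (f.natDegree * k)) +
      3 * f.natDegree * k ^ 2 * Real.log (f.map (Int.castRingHom ℂ)).mahlerMeasure := by
    rw [← e1, ← e2]
    exact h
  exact h'

end Pool.Agent.V1156.RC
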