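import Mathlib

/-!
# Choice of the parameters, resultants: the bound with a quarter of `log 2`
-/

set_option autoImplicit false

namespace Pool.Agent.V1156.RC

lemma opt_c4 {Λ mm l : ℝ} {n t : ℕ} (ht : 1 ≤ t) (htn : t ≤ n) (hl : l = 1 + Real.log n)
    (hΛ : 82 * (Real.sqrt (n * t) * l ^ (3 / 4 : ℝ)) ≤ Λ)
    (H : ∀ k w : ℕ, 1 ≤ k → 1 ≤ w → t * w ≤ n * k → (w : ℝ) * (k * Λ) ≤
      10 * ((t * (w : ℝ) ^ 2 + n * k) * (1 + Real.log (n * k)) + n * k * (k ^ 2 * mm))) :
    Real.log 2 / 4 ≤ mm := by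
  by_contra hcon
  push Not at hcon
  have hmm : mm ≤ 0.1733 := by
    have := Real.log_two_lt_d9
    linarith
  have hn : 1 ≤ n := ht.trans htn
  have hn1 : (1:ℝ) ≤ n := by exact_mod_cast hn
  have ht1 : (1:ℝ) ≤ t := by exact_mod_cast ht
  have htn1 : (t:ℝ) ≤ n := by exact_mod_cast htn
  have hln : 0 ≤ Real.log n := Real.log_nonneg hn1
  have hl1 : 1 ≤ l := by linarith
  have hl0 : 0 ≤ l := by linarith
  set u : ℝ := l ^ (1 / 4 : ℝ) with hu
  have hu1 : 1 ≤ u := Real.one_le_rpow hl1 (by norm_num)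
  have hu4 : u ^ 4 = l := by
    rw [hu, ← Real.rpow_natCast, ← Real.rpow_mul hl0]
    norm_num
  have hu3 : l ^ (3 / 4 : ℝ) = u ^ 3 := by
    rw [hu, ← Real.rpow_natCast, ← Real.rpow_mul hl0]
    norm_num
  rw [hu3] at hΛ
  have hs0 : 0 < Real.sqrt (n * t) := Real.sqrt_pos.mpr (by positivity)
  have hΛ0 : 0 < Λ := lt_of_lt_of_le (by positivity) hΛ
  have hu2 : 1 ≤ u ^ 2 := one_le_pow₀ hu1
  set k := ⌈2 * u ^ 2⌉₊ with hk
  have hk1 : 2 * u ^ 2 ≤ k := Nat.le_ceil _
  have hk2 : (k : ℝ) < 2 * u ^ 2 + 1 := Nat.ceil_lt_add_one (by positivity)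
  have hk3 : 1 ≤ k := Nat.one_le_ceil_iff.mpr (by positivity)
  have hk3' : (1:ℝ) ≤ k := by exact_mod_cast hk3
  have hk3u : (k : ℝ) ≤ 3 * u ^ 2 := by linarith
  have hk4 : (k : ℝ) ^ 2 ≤ 9 * l := by
    have h2 := pow_le_pow_left₀ (by positivity) hk3u 2
    calc (k : ℝ) ^ 2 ≤ (3 * u ^ 2) ^ 2 := h2
      _ = 9 * l := by rw [← hu4]; ring
  have hk0 : (0:ℝ) < k := by linarith
  have hlogk : Real.log k ≤ 1.1 * l := by
    have h1 : Real.log k ≤ Real.log (3 * u ^ 2) := Real.log_le_log hk0 hk3u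
    rw [Real.log_mul (by norm_num) (by positivity)] at h1
    have h2 : Real.log 3 ≤ 1.0987 := by
      have := Real.log_three_lt_d9
      linarith
    have h3 : Real.log (u ^ 2) ≤ (l - 1) / 2 := by
      have h4 : Real.log (u ^ 2) = Real.log l / 2 := by
        rw [← hu4, Real.log_pow, Real.log_pow]
        push_cast
        ring
      rw [h4]
      have := Real.log_le_sub_one_of_pos (by linarith : 0 < l)
      linarith
    linarith
  have hlognk : 1 + Real.log (n * k) ≤ 2.1 * l := by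
    rw [Real.log_mul (by linarith) (by linarith)]
    linarith
  -- `x = √(n k / t)`
  set x := Real.sqrt (n * k / t) with hx
  have hx2 : x ^ 2 = n * k / t := Real.sq_sqrt (by positivity)
  have hxt : t * x ^ 2 = n * k := by rw [hx2]; field_simp
  have hnkt : (1:ℝ) ≤ n * k / t := by
    rw [le_div_iff₀ (by linarith)]
    nlinarith
  have hx1 : 1 ≤ x := Real.one_le_sqrt.mpr hnkt
  set w := ⌊x⌋₊ with hw
  have hw1 : (w : ℝ) ≤ x := Nat.floor_le (by linarith)
  have hw2 : x < w + 1 := Nat.lt_floor_add_one x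
  have hw3 : 1 ≤ w := by
    rw [hw, Nat.one_le_floor_iff]
    exact hx1
  have hw3' : (1:ℝ) ≤ w := by exact_mod_cast hw3
  have hwx : x / 2 ≤ w := by linarith
  have hw4 : t * w ≤ n * k := by
    have : (t : ℝ) * w ≤ n * k := by
      rw [← hxt]
      apply mul_le_mul_of_nonneg_left _ (by linarith)
      nlinarith
    exact_mod_cast this
  have hw5 : t * (w : ℝ) ^ 2 ≤ n * k := by
    rw [← hxt]
    exact mul_le_mul_of_nonneg_left (pow_le_pow_left₀ (by linarith) hw1 2) (by linarith)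
  have h1 := H k w hk3 hw3 hw4
  have hnk0 : 0 < (n : ℝ) * k := by positivity
  have hkmm : (k:ℝ) ^ 2 * mm ≤ 1.56 * l := by
    calc (k:ℝ) ^ 2 * mm ≤ k ^ 2 * 0.1733 := mul_le_mul_of_nonneg_left hmm (by positivity)
      _ ≤ 9 * l * 0.1733 := mul_le_mul_of_nonneg_right hk4 (by norm_num)
      _ ≤ 1.56 * l := by linarith
  have h2 : (n : ℝ) * k * (w * Λ / n) ≤ n * k * (57.6 * l) := by
    have e1 : (n : ℝ) * k * (w * Λ / n) = w * (k * Λ) := by field_simp
    rw [e1]
    have e2 : (t * (w : ℝ) ^ 2 + n * k) * (1 + Real.log (n * k)) ≤ 2 * (n * k) * (2.1 * l) := by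
      apply mul_le_mul (by linarith) hlognk _ (by positivity)
      have : 0 ≤ Real.log (n * k) := Real.log_nonneg (by nlinarith)
      linarith
    have e3 : (n : ℝ) * k * (k ^ 2 * mm) ≤ n * k * (1.56 * l) :=
      mul_le_mul_of_nonneg_left hkmm hnk0.le
    nlinarith
  have h3 : w * Λ / n ≤ 57.6 * l := le_of_mul_le_mul_left h2 hnk0
  -- the lower bound
  have h4 : 57.7 * l ≤ w * Λ / n := by
    rw [le_div_iff₀ (by linarith)]
    have h5 : x * Real.sqrt (n * t) = n * Real.sqrt k := by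
      rw [hx, ← Real.sqrt_mul (by positivity)]
      have : (n : ℝ) * k / t * (n * t) = n ^ 2 * k := by field_simp
      rw [this, Real.sqrt_mul (by positivity), Real.sqrt_sq (by linarith)]
    have h6 : 1.41 * u ≤ Real.sqrt k := by
      apply Real.le_sqrt_of_sq_le
      nlinarith
    calc 57.7 * l * n ≤ 41 * (n * (1.41 * u * u ^ 3)) := by
          have e : 41 * (n * (1.41 * u * u ^ 3)) = 57.81 * (n * u ^ 4) := by ring
          rw [e, hu4]
          nlinarith [mul_nonneg (by linarith : (0:ℝ) ≤ n) hl0]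
      _ ≤ 41 * (n * (Real.sqrt k * u ^ 3)) := by
          apply mul_le_mul_of_nonneg_left _ (by norm_num)
          apply mul_le_mul_of_nonneg_left _ (by linarith)
          exact mul_le_mul_of_nonneg_right h6 (by positivity)
      _ = x / 2 * (82 * (Real.sqrt (n * t) * u ^ 3)) := by
          have : 41 * (n * (Real.sqrt k * u ^ 3)) = 41 * ((n * Real.sqrt k) * u ^ 3) := by ring
          rw [this, ← h5]
          ring
      _ ≤ w * Λ := mul_le_mul hwx hΛ (by positivity) (by linarith)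
  linarith

end Pool.Agent.V1156.RC
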