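import Mathlib
import Pool.Agent.V1156.RC.Fld
import Pool.Agent.V1156.RC.Cyc
import Pool.Agent.V1156.RC.Opt
import Pool.Agent.V1156.RC.Opt2
import Pool.Agent.V1156.RV.Rel

/-!
# Large resultants with products of cyclotomic polynomials, relative to an arbitrary field
-/

set_option autoImplicit false

open Finset Polynomial Module Filter Topology IntermediateField

namespace Pool.Agent.V1156.RC

open Pool.Agent.W666.DL Pool.Agent.W666.DY Pool.Agent.Y642.LZ Pool.Agent.Y642.DL
  Pool.Agent.V1156.DL Pool.Agent.H388SL Pool.Agent.H389R3.LR Pool.Agent.H389R3.LP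
  Pool.Agent.TH860.LP

/-- **the relative inequality** -/
theorem rel_cyc (b : ℤ[X]) (S : Finset ℂ) (hS : S.Nonempty)
    (hbS : b.map (Int.castRingHom ℂ) = ∏ s ∈ S, (X - Polynomial.C s))
    (hS1 : ∀ s ∈ S, ‖s‖ = 1) {η : ℝ} (hη : 0 < η) (hη1 : η ≤ 1)
    (hsep : ∀ s ∈ S, ∀ s' ∈ S, s ≠ s' → η ≤ ‖s - s'‖)
    (F : IntermediateField ℚ ℂ) {α : ℂ} (hα : IsIntegral ℤ α)
    (hηl : Real.log (1 / η) ≤ 10 * (1 + Real.log (minpoly F α).natDegree)) (k w : ℕ) (hk : 1 ≤ k)
    (hcase : k = 1 ∨ ((0 < hgt α ∧ ∀ z ∈ (minpoly F α).rootSet ℂ,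
      ∀ z' ∈ (minpoly F α).rootSet ℂ, z ≠ z' → ∀ j : ℕ, 1 ≤ j → z ^ j ≠ z' ^ j) ∧
      ∀ j : ℕ, 1 ≤ j → j ≤ k → b ∣ b.comp (X ^ j)))
    (hbroot : ∀ s ∈ S, ∃ N : ℕ, 0 < N ∧ s ^ N = 1)
    (hne : aeval α b ≠ 0) (hw1 : 1 ≤ w)
    (hw2 : S.card * w ≤ (minpoly F α).natDegree * k) :
    (w : ℝ) * (k * ((minpoly F α).natDegree *
        (Real.log (resAbs (minpoly ℤ α) b) / (minpoly ℤ α).natDegree))) ≤
      10 * ((S.card * (w : ℝ) ^ 2 + (minpoly F α).natDegree * k) *
          (1 + Real.log ((minpoly F α).natDegree * k)) +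
          (minpoly F α).natDegree * k * (k ^ 2 * ((minpoly F α).natDegree * hgt α))) := by
  classical
  have hαF : IsIntegral F α := hα.tower_top
  set g := minpoly ℤ α with hg
  -- the conjugates
  set Rt : Finset ℂ := ((minpoly F α).map (algebraMap F ℂ)).roots.toFinset with hRtdef
  have hmap0 : (minpoly F α).map (algebraMap F ℂ) ≠ 0 :=
    (Polynomial.map_ne_zero_iff (algebraMap F ℂ).injective).mpr (minpoly.ne_zero hαF)
  have hRt : ∀ z, z ∈ Rt ↔ aeval z (minpoly F α) = 0 := by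
    intro z
    rw [hRtdef, Multiset.mem_toFinset, mem_roots hmap0, IsRoot.def, eval_map_algebraMap]
  have hnodup : ((minpoly F α).map (algebraMap F ℂ)).roots.Nodup :=
    nodup_roots ((minpoly.irreducible hαF).separable.map)
  have hprod : (minpoly F α).map (algebraMap F ℂ) = ∏ z ∈ Rt, (X - C z) := by
    have h1 := (IsAlgClosed.splits ((minpoly F α).map (algebraMap F ℂ))).eq_prod_roots_of_monic
      ((minpoly.monic hαF).map _)
    conv_lhs => rw [h1]
    rw [Finset.prod_eq_multiset_prod, hRtdef, Multiset.toFinset_val, hnodup.dedup]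
  have hRcard : Rt.card = (minpoly F α).natDegree := by
    have h1 := congrArg Polynomial.natDegree hprod
    rw [natDegree_prod_of_monic _ _ (fun z _ => monic_X_sub_C z),
      (minpoly.monic hαF).natDegree_map] at h1
    simp only [natDegree_X_sub_C, Finset.sum_const, smul_eq_mul, mul_one] at h1
    exact h1.symm
  have hαR : α ∈ Rt := (hRt α).mpr (minpoly.aeval F α)
  have hroot : ∀ z ∈ Rt, aeval z g = 0 := by
    intro z hz
    have h1 : minpoly F α ∣ g.map (algebraMap ℤ F) := by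
      apply minpoly.dvd
      rw [aeval_map_algebraMap]
      exact minpoly.aeval ℤ α
    have h2 := (hRt z).mp hz
    obtain ⟨A, hA⟩ := h1
    have h3 : aeval z (g.map (algebraMap ℤ F)) = 0 := by
      rw [hA, map_mul, h2, zero_mul]
    rwa [aeval_map_algebraMap] at h3
  have hgm : g.Monic := minpoly.monic hα
  set L := IntermediateField.adjoin ℚ (g.rootSet ℂ) with hL
  have hzR : ∀ z ∈ Rt, z ∈ g.rootSet ℂ := fun z hz => mem_rootSet.mpr ⟨hgm.ne_zero, hroot z hz⟩
  have hint : ∀ z ∈ g.rootSet ℂ, IsIntegral ℤ z := fun z hz =>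
    ⟨g, hgm, by rw [← Polynomial.aeval_def]; exact (mem_rootSet.mp hz).2⟩
  have : Finite (g.rootSet ℂ) := (rootSet_finite g ℂ).to_subtype
  have hfin : FiniteDimensional ℚ L := IntermediateField.finiteDimensional_adjoin
    fun z hz => (hint z hz).tower_top
  have : NumberField L := { to_charZero := inferInstance, to_finiteDimensional := hfin }
  have hmemL : ∀ z ∈ Rt, z ∈ L := fun z hz => IntermediateField.subset_adjoin ℚ _ (hzR _ hz)
  -- the conjugates in `L`
  set R : Finset L := Rt.attach.image fun z : {x // x ∈ Rt} => (⟨(z : ℂ), hmemL z z.2⟩ : L) with hR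
  have hRcard' : R.card = (minpoly F α).natDegree := by
    rw [hR, Finset.card_image_of_injective, Finset.card_attach, hRcard]
    intro x y hxy
    exact Subtype.ext (congrArg (fun u : L => (u : ℂ)) hxy)
  have hRmem : ∀ x ∈ R, (x : ℂ) ∈ Rt := by
    intro x hx
    obtain ⟨z, _, rfl⟩ := Finset.mem_image.mp hx
    exact z.2
  have hRint : ∀ x ∈ R, IsIntegral ℤ x := by
    intro x hx
    have h1 := hint _ (hzR _ (hRmem x hx))
    exact (isIntegral_algebraMap_iff (algebraMap L ℂ).injective).mp h1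
  have hRmin : ∀ x ∈ R, minpoly ℤ x = g := by
    intro x hx
    have h1 : minpoly ℤ (x : ℂ) = minpoly ℤ x :=
      minpoly.algebraMap_eq (algebraMap L ℂ).injective x
    rw [← h1]
    have h2 := minpoly.isIntegrallyClosed_dvd (hint _ (hzR _ (hRmem x hx))) (hroot _ (hRmem x hx))
    have h3 : Associated (minpoly ℤ (x : ℂ)) g :=
      (minpoly.irreducible (hint _ (hzR _ (hRmem x hx)))).associated_of_dvd
        (minpoly.irreducible hα) h2
    exact eq_of_monic_of_associated (minpoly.monic (hint _ (hzR _ (hRmem x hx)))) hgm h3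
  have hlam : ∀ x ∈ R, lam x = finrank ℚ L * hgt α := by
    intro x hx
    rw [lam_root (hRint x hx), hRmin x hx]
    rfl
  have hfr : (0 : ℝ) < finrank ℚ L := by exact_mod_cast finrank_pos (R := ℚ) (M := L)
  have hbne : ∀ x ∈ R, aeval x b ≠ 0 := by
    intro x hx h
    apply hne
    have h2 : g ∣ b := by
      rw [← hRmin x hx]
      exact minpoly.isIntegrallyClosed_dvd (hRint x hx) h
    obtain ⟨u, hu⟩ := h2
    rw [hu, map_mul, hg, minpoly.aeval, zero_mul]
  have hRne : R.Nonempty := by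
    rw [← Finset.card_pos, hRcard']
    exact minpoly.natDegree_pos hαF
  have hpow : 0 < hgt α → ∀ x ∈ R, ∀ x' ∈ R, ∀ i j : ℕ, x ^ i = x' ^ j → i = j := by
    intro hpos x hx x' hx' i j hij
    have h1 := congrArg lam hij
    rw [lam_pow, lam_pow, hlam x hx, hlam x' hx'] at h1
    have h2 : 0 < (finrank ℚ L : ℝ) * hgt α := mul_pos hfr hpos
    have h3 : (i : ℝ) = j := mul_right_cancel₀ h2.ne' h1
    exact_mod_cast h3
  have h := fld_cyc b S hS hbS hS1 hη hη1 hsep R k w hRne hk (by rw [hRcard']; exact hηl)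
    hRint
    (by
      intro x hx x' hx' i j hi1 hik hj1 hjk hij
      rcases hcase with h1 | ⟨⟨hpos, h1⟩, -⟩
      · have hi : i = 1 := by omega
        have hj : j = 1 := by omega
        subst hi
        subst hj
        rw [pow_one, pow_one] at hij
        exact ⟨hij, rfl⟩
      · have e1 := hpow hpos x hx x' hx' i j hij
        refine ⟨?_, e1⟩
        subst e1
        by_contra hne
        refine h1 x (mem_rootSet.mpr ⟨minpoly.ne_zero hαF, (hRt _).mp (hRmem x hx)⟩)
          x' (mem_rootSet.mpr ⟨minpoly.ne_zero hαF, (hRt _).mp (hRmem x' hx')⟩)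
          (fun h2 => hne (Subtype.ext h2)) i hi1 ?_
        exact congrArg (fun u : L => (u : ℂ)) hij)
    (by
      rcases hcase with h1 | ⟨-, h1⟩
      · intro j hj1 hjk
        have hj : j = 1 := by omega
        subst hj
        rw [pow_one, comp_X]
      · exact h1)
    (by
      intro x hx j hj1 hjk
      rcases hcase with h1 | ⟨⟨hpos, h1⟩, -⟩
      · have hj : j = 1 := by omega
        subst hj
        rw [pow_one]
        exact hbne x hx
      · intro h2
        have σ : L →ₐ[ℚ] ℂ := L.val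
        have h3 : aeval (σ (x ^ j)) b = 0 := by
          have h4 : aeval (σ (x ^ j)) b = σ (aeval (x ^ j) b) :=
            aeval_algHom_apply (σ.restrictScalars ℤ) (x ^ j) b
          rw [h4, h2, map_zero]
        have h5 : σ (x ^ j) ∈ S := (mem_zeros hbS _).mpr h3
        obtain ⟨N, hN, h6⟩ := hbroot _ h5
        have h7 : x ^ (j * N) = x ^ 0 := by
          rw [pow_mul, pow_zero]
          apply σ.toRingHom.injective
          change σ ((x ^ j) ^ N) = σ 1
          rw [map_pow, h6, map_one]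
        have h4 := hpow hpos x hx x hx _ _ h7
        have : 0 < j * N := Nat.mul_pos hj1 hN
        omega) hw1 (by rw [hRcard']; exact hw2)
  rw [hRcard'] at h
  have e1 : ∑ x ∈ R, NL (aeval x b) = (minpoly F α).natDegree *
      (finrank ℚ L * (Real.log (resAbs g b) / g.natDegree)) := by
    rw [← hRcard', ← nsmul_eq_mul, ← Finset.sum_const]
    refine Finset.sum_congr rfl fun x hx => ?_
    rw [NL_value (hRint x hx) b (hbne x hx), hRmin x hx]
  have e2 : ∑ x ∈ R, lam x = (minpoly F α).natDegree * (finrank ℚ L * hgt α) := by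
    rw [← hRcard', ← nsmul_eq_mul, ← Finset.sum_const]
    exact Finset.sum_congr rfl hlam
  rw [e1, e2] at h
  have h2 : (finrank ℚ L : ℝ) * ((w : ℝ) * (k * ((minpoly F α).natDegree *
        (Real.log (resAbs g b) / g.natDegree)))) ≤
      finrank ℚ L * (10 * ((S.card * (w : ℝ) ^ 2 + (minpoly F α).natDegree * k) *
          (1 + Real.log ((minpoly F α).natDegree * k)) +
          (minpoly F α).natDegree * k * (k ^ 2 * ((minpoly F α).natDegree * hgt α)))) := by
    refine le_trans (le_of_eq ?_) (h.trans (le_of_eq ?_))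
    · ring
    · ring
  exact le_of_mul_le_mul_left h2 hfr

/-- **large resultants relative to a field** -/
theorem main_rel (F : IntermediateField ℚ ℂ) {α : ℂ} (hα : IsIntegral ℤ α) (𝒟 : Finset ℕ)
    (hne : 𝒟.Nonempty) (hpos : ∀ m ∈ 𝒟, 0 < m) (d t : ℕ) (hd : d = (minpoly F α).natDegree)
    (ht : t = ∑ m ∈ 𝒟, Nat.totient m) (htd : t ≤ d) (Λ : ℝ)
    (hΛ : Λ = d * (Real.log (resAbs (minpoly ℤ α) (∏ m ∈ 𝒟, cyclotomic m ℤ)) /
      (minpoly ℤ α).natDegree)) :
    (80 * (Real.sqrt (d * t) * (1 + Real.log d)) ≤ Λ →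
      min Λ (Λ ^ 2 / (d * (1 + Real.log d))) / (1600 * t) ≤ d * hgt α) ∧
    (0 < hgt α → (∀ z ∈ (minpoly F α).rootSet ℂ,
      ∀ z' ∈ (minpoly F α).rootSet ℂ, z ≠ z' → ∀ j : ℕ, 1 ≤ j → z ^ j ≠ z' ^ j) →
      (∀ m ∈ 𝒟, ∀ e, e ∣ m → e ∈ 𝒟) → 200 * Real.sqrt (d * t) ≤ Λ →
      min (1 + Real.log d) ((Λ / (200 * Real.sqrt (d * t))) ^ 4 / (1 + Real.log d) ^ 3) ≤
        d * hgt α) := by
  classical
  set b : ℤ[X] := ∏ m ∈ 𝒟, cyclotomic m ℤ with hb
  set S := cycSet 𝒟 with hS
  have hcard : S.card = t := by rw [ht]; exact cycSet_card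
  have ht1 : 1 ≤ t := by
    obtain ⟨m, hm⟩ := hne
    rw [ht]
    exact le_trans (Nat.totient_pos.mpr (hpos m hm))
      (Finset.single_le_sum (f := fun m => Nat.totient m) (fun _ _ => Nat.zero_le _) hm)
  have hSne : S.Nonempty := Finset.card_pos.mp (by omega)
  have hbS := cycProd_map hpos
  have hroots : ∀ s ∈ S, ∃ N : ℕ, 0 < N ∧ s ^ N = 1 := by
    intro s hs
    obtain ⟨m, hm, h1⟩ := (mem_cycSet hpos).mp hs
    exact ⟨m, hpos m hm, h1.pow_eq_one⟩
  have hS1 : ∀ s ∈ S, ‖s‖ = 1 := by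
    intro s hs
    obtain ⟨m, hm, h1⟩ := (mem_cycSet hpos).mp hs
    exact h1.norm'_eq_one (hpos m hm).ne'
  have ht1' : (1:ℝ) ≤ t := by exact_mod_cast ht1
  have hd1 : (1:ℝ) ≤ d := by exact_mod_cast (ht1.trans htd)
  have htd' : (t:ℝ) ≤ d := by exact_mod_cast htd
  have hln : 0 ≤ Real.log d := Real.log_nonneg hd1
  set η : ℝ := 1 / (16 * (t : ℝ) ^ 4) with hη
  have ht4 : (1:ℝ) ≤ (t : ℝ) ^ 4 := one_le_pow₀ ht1'
  have hη0 : 0 < η := by positivity
  have hη1 : η ≤ 1 := by
    rw [hη, div_le_one (by positivity)]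
    linarith
  have hsep : ∀ s ∈ S, ∀ s' ∈ S, s ≠ s' → η ≤ ‖s - s'‖ := by
    intro s hs s' hs' h
    have := cycSet_sep hpos hs hs' h
    rw [← ht] at this
    exact this
  have hηl : Real.log (1 / η) ≤ 10 * (1 + Real.log (minpoly F α).natDegree) := by
    rw [← hd, hη, one_div_one_div, Real.log_mul (by norm_num) (by positivity), Real.log_pow]
    have h1 : Real.log 16 ≤ 3 := by
      have : (16:ℝ) = 2 ^ 4 := by norm_num
      rw [this, Real.log_pow]
      have := Real.log_two_lt_d9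
      push_cast
      linarith
    have h2 : Real.log t ≤ Real.log d := Real.log_le_log (by linarith) htd'
    push_cast
    linarith
  have hn0 : (0:ℝ) < (minpoly ℤ α).natDegree := by exact_mod_cast minpoly.natDegree_pos hα
  have hval : 0 < Λ → aeval α b ≠ 0 := by
    intro hpos' h0
    have h1 : resAbs (minpoly ℤ α) b = 0 := by
      unfold resAbs
      apply Multiset.prod_eq_zero
      rw [Multiset.mem_map]
      refine ⟨α, ?_, by rw [h0, norm_zero]⟩
      rw [mem_roots (((minpoly.monic hα).map _).ne_zero), IsRoot.def, eval_map]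
      exact minpoly.aeval ℤ α
    rw [hΛ, h1, Real.log_zero] at hpos'
    simp at hpos'
  refine ⟨fun h => ?_, fun hh hnd hcl h => ?_⟩
  · have hpos' : 0 < Λ := lt_of_lt_of_le (by positivity) h
    refine opt_c1 ht1 htd rfl h fun w hw1 hw2 => ?_
    have h1 := rel_cyc b S hSne hbS hS1 hη0 hη1 hsep F hα hηl 1 w le_rfl
      (Or.inl rfl) hroots (hval hpos') hw1 (by rw [hcard, ← hd, mul_one]; exact hw2)
    rw [hcard, ← hd, ← hΛ] at h1
    simp only [Nat.cast_one, mul_one, one_mul, one_pow] at h1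
    exact h1
  · have hpos' : 0 < Λ := lt_of_lt_of_le (by positivity) h
    refine opt_c3 ht1 htd rfl h (by positivity) fun k w hk hw1 hw2 => ?_
    have h1 := rel_cyc b S hSne hbS hS1 hη0 hη1 hsep F hα hηl k w hk
      (Or.inr ⟨⟨hh, hnd⟩, fun j hj1 _ => cycProd_dvd hpos hcl j hj1⟩) hroots
      (hval hpos') hw1 (by rw [hcard, ← hd]; exact hw2)
    rw [hcard, ← hd, ← hΛ] at h1
    exact h1

end Pool.Agent.V1156.RC
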